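import Pool.Agent.Lib.MP_7523db_al.Count

/-! Bounds for the number of bad conjugators, MP_7523db_al. -/

namespace MP7523db

open Equiv
open scoped Nat Classical

set_option linter.unusedSectionVars false
set_option linter.unusedDecidableInType false
set_option linter.unusedFintypeInType false

section

variable {α : Type*} [Fintype α] [DecidableEq α]

/-- invariant `m`-subsets -/
noncomputable def Inv (a : Perm α) (m : ℕ) : Finset (Finset α) :=
  Finset.univ.filter (fun S => S.card = m ∧ ∀ x, a x ∈ S ↔ x ∈ S)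

lemma Good.card_Inv {a : Perm α} {r : ℕ} {z : α} (h : Good a r z) (hr : 11 ≤ r) (m : ℕ) :
    (Inv a m).card ^ 11 ≤ (Fintype.card α).choose m := by
  rcases Finset.eq_empty_or_nonempty (Inv a m) with h0 | ⟨S0, hS0⟩
  · rw [h0]; simp
  have hcardα : 1 ≤ Fintype.card α := Fintype.card_pos_iff.2 ⟨z⟩
  have hk := h.card_reps
  set k := h.reps.card with hkdef
  have hstruct : ∀ S ∈ Inv a m, (z ∈ S ∧ m = r * (S ∩ h.reps).card + 1) ∨
      (z ∉ S ∧ m = r * (S ∩ h.reps).card) := by
    intro S hS
    rw [Inv, Finset.mem_filter] at hS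
    have h1 := h.card_inv S hS.2.2
    by_cases hz : z ∈ S
    · left
      refine ⟨hz, ?_⟩
      rw [Finset.card_erase_of_mem hz, hS.2.1] at h1
      have : 0 < S.card := Finset.card_pos.2 ⟨z, hz⟩
      omega
    · right
      refine ⟨hz, ?_⟩
      rw [Finset.erase_eq_of_notMem hz, hS.2.1] at h1
      exact h1
  have hmod : ∀ j : ℕ, (r * j + 1) % r = 1 := by
    intro j; rw [Nat.mul_add_mod]; exact Nat.mod_eq_of_lt (by omega)
  -- the common value
  obtain ⟨j, hj⟩ : ∃ j, j = (S0 ∩ h.reps).card := ⟨_, rfl⟩
  have hsame : ∀ S ∈ Inv a m, (S ∩ h.reps).card = j ∧ (z ∈ S ↔ z ∈ S0) := by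
    intro S hS
    have hrpos : 0 < r := by omega
    rcases hstruct S hS with ⟨hz, hm⟩ | ⟨hz, hm⟩ <;>
    rcases hstruct S0 hS0 with ⟨hz0, hm0⟩ | ⟨hz0, hm0⟩
    · refine ⟨?_, by simp [hz, hz0]⟩
      rw [hj]
      have : r * (S ∩ h.reps).card = r * (S0 ∩ h.reps).card := by omega
      exact Nat.eq_of_mul_eq_mul_left hrpos this
    · exfalso
      have h1 := hmod (S ∩ h.reps).card
      rw [← hm, hm0, Nat.mul_mod_right] at h1
      exact absurd h1 (by norm_num)
    · exfalso
      have h1 := hmod (S0 ∩ h.reps).card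
      rw [← hm0, hm, Nat.mul_mod_right] at h1
      exact absurd h1 (by norm_num)
    · refine ⟨?_, by simp [hz, hz0]⟩
      rw [hj]
      have : r * (S ∩ h.reps).card = r * (S0 ∩ h.reps).card := by omega
      exact Nat.eq_of_mul_eq_mul_left hrpos this
  have hA : (Inv a m).card ≤ k.choose j := by
    rw [hkdef, ← Finset.card_powersetCard]
    apply Finset.card_le_card_of_injOn (fun S => S ∩ h.reps)
    · intro S hS
      rw [Finset.mem_coe, Finset.mem_powersetCard]
      exact ⟨Finset.inter_subset_right, (hsame S hS).1⟩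
    · intro S hS S' hS' heq
      have e1 := hsame S hS
      have e2 := hsame S' hS'
      have hS1 := hS
      have hS1' := hS'
      rw [Finset.mem_coe, Inv, Finset.mem_filter] at hS1 hS1'
      have : (fun x => x ∈ S) = (fun x => x ∈ S') := by
        apply h.ext (c := id)
        · intro x; simp [hS1.2.2]
        · intro x; simp [hS1'.2.2]
        · exact propext (e1.2.trans e2.2.symm)
        · intro b hb
          have h3 : b ∈ S ∩ h.reps ↔ b ∈ S' ∩ h.reps := by
            have heq' : S ∩ h.reps = S' ∩ h.reps := heq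
            rw [heq']
          simpa [hb] using h3
      ext x
      exact iff_of_eq (congrFun this x)
  have hAr : (Inv a m).card ^ r ≤ (Fintype.card α).choose m := by
    have h1 : (Inv a m).card ^ r ≤ (r * k).choose (r * j) :=
      (Nat.pow_le_pow_left hA r).trans (choose_pow_le k j r)
    refine h1.trans ?_
    rw [hk]
    rcases hstruct S0 hS0 with ⟨hz0, hm0⟩ | ⟨hz0, hm0⟩
    · rw [hm0, ← hj]
      have : Fintype.card α = (Fintype.card α - 1) + 1 := by omega
      conv_rhs => rw [this]
      rw [Nat.choose_succ_succ]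
      exact Nat.le_add_right _ _
    · rw [hm0, ← hj]
      exact Nat.choose_le_choose _ (by omega)
  have hpos : 1 ≤ (Inv a m).card := Finset.card_pos.2 ⟨S0, hS0⟩
  exact (Nat.pow_le_pow_right hpos hr).trans hAr

/-- case (i): common invariant set of size `m` -/
noncomputable def BadI (a b : Perm α) (m : ℕ) : Finset (Perm α) :=
  Finset.univ.filter (fun g => ∃ S : Finset α, S.card = m ∧ (∀ x, a x ∈ S ↔ x ∈ S) ∧
    (∀ x, (g * b * g⁻¹) x ∈ S ↔ x ∈ S))

lemma card_BadI (a b : Perm α) (m : ℕ) :
    (BadI a b m).card ≤ (Inv a m).card * (Inv b m).card * (m ! * (Fintype.card α - m)!) := by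
  have hsub : BadI a b m ⊆ ((Inv a m) ×ˢ (Inv b m)).biUnion
      (fun SS => Finset.univ.filter (fun g : Perm α =>
        (fun x => decide (x ∈ SS.1)) ∘ g = (fun x => decide (x ∈ SS.2)))) := by
    intro g hg
    rw [BadI, Finset.mem_filter] at hg
    obtain ⟨-, S, hc, h1, h2⟩ := hg
    rw [Finset.mem_biUnion]
    refine ⟨(S, Finset.univ.filter (fun x => g x ∈ S)), ?_, ?_⟩
    · rw [Finset.mem_product, Inv, Inv, Finset.mem_filter, Finset.mem_filter]
      refine ⟨⟨Finset.mem_univ _, hc, h1⟩, Finset.mem_univ _, ?_, ?_⟩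
      · rw [← hc]
        apply Finset.card_bij (fun x _ => g x)
        · intro x hx; simpa using hx
        · intro x _ y _ hxy; exact g.injective hxy
        · intro y hy
          refine ⟨g⁻¹ y, ?_, by simp⟩
          simpa using hy
      · intro x
        simp only [Finset.mem_filter, Finset.mem_univ, true_and]
        have := h2 (g x)
        simpa [Perm.mul_apply] using this
    · rw [Finset.mem_filter]
      refine ⟨Finset.mem_univ _, ?_⟩
      funext x
      simp
  refine (Finset.card_le_card hsub).trans ?_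
  rw [← Finset.card_product]
  apply Finset.card_biUnion_le_card_mul
  rintro ⟨S, S'⟩ hSS
  refine (card_comp_eq_le _ _).trans ?_
  rw [Finset.mem_product, Inv, Inv, Finset.mem_filter, Finset.mem_filter] at hSS
  have hc := hSS.1.2.1
  simp only at hc
  rw [Fintype.prod_bool]
  have e1 : Fintype.card {x // decide (x ∈ S) = true} = m := by
    rw [← hc, Fintype.card_subtype]; congr 1; ext x; simp
  have e2 : Fintype.card {x // decide (x ∈ S) = false} = Fintype.card α - m := by
    rw [← hc, ← Finset.card_compl, Fintype.card_subtype]; congr 1; ext x; simp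
  have e1' : Fintype.card {x // (fun x => decide (x ∈ (S, S').1)) x = true} = m := by
    simpa using e1
  have e2' : Fintype.card {x // (fun x => decide (x ∈ (S, S').1)) x = false} =
      Fintype.card α - m := by
    simpa using e2
  rw [e1', e2']


/-- labelled structures: `f x = none` only at `z`, and `a` permutes the other fibres. -/
noncomputable def Lab (a : Perm α) (z : α) (v : ℕ) : Finset (α → Option (Fin v)) :=
  Finset.univ.filter (fun f => (∀ x, f x = none ↔ x = z) ∧
    ∃ π : Perm (Fin v), ∀ x, f (a x) = (f x).map π)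

lemma mem_Lab {a : Perm α} {z : α} {v : ℕ} {f : α → Option (Fin v)} :
    f ∈ Lab a z v ↔ (∀ x, f x = none ↔ x = z) ∧
      ∃ π : Perm (Fin v), ∀ x, f (a x) = (f x).map π := by
  simp [Lab]

lemma Good.card_Lab {a : Perm α} {r : ℕ} {z : α} (h : Good a r z) (v : ℕ) :
    (Lab a z v).card ≤ v ! * v ^ h.reps.card := by
  have hP : ∀ f : Lab a z v, ∃ π : Perm (Fin v), ∀ x, f.1 (a x) = (f.1 x).map π := by
    intro f
    exact (mem_Lab.1 f.2).2
  have hN : ∀ f : Lab a z v, ∀ x, f.1 x = none ↔ x = z := by
    intro f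
    exact (mem_Lab.1 f.2).1
  have hS : ∀ f : Lab a z v, ∀ b : h.reps, (f.1 b.1).isSome := by
    intro f b
    rw [Option.isSome_iff_ne_none]
    intro h0
    rw [hN] at h0
    have hb2 := b.2
    simp only [h0] at hb2
    exact h.z_notMem hb2
  choose P hP using hP
  let Φ : Lab a z v → Perm (Fin v) × (h.reps → Fin v) :=
    fun f => (P f, fun b => (f.1 b.1).get (hS f b))
  have hΦ : Function.Injective Φ := by
    intro f f' heq
    simp only [Φ, Prod.mk.injEq] at heq
    apply Subtype.ext
    apply h.ext (c := Option.map (P f))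
    · exact hP f
    · rw [heq.1]; exact hP f'
    · rw [(hN f z).2 rfl, (hN f' z).2 rfl]
    · intro b hb
      have h1 := congrFun heq.2 ⟨b, hb⟩
      simp only at h1
      rw [← Option.some_get (hS f ⟨b, hb⟩), ← Option.some_get (hS f' ⟨b, hb⟩)] 
      exact congrArg some h1
  have := Fintype.card_le_of_injective Φ hΦ
  simpa [Fintype.card_perm] using this

/-- case (ii): common block system on the complement of the common fixed point. -/
noncomputable def BadII (a b : Perm α) (za zb : α) (u v : ℕ) : Finset (Perm α) :=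
  Finset.univ.filter (fun g => g zb = za ∧ ∃ f : α → Option (Fin v),
    (∀ x, f x = none ↔ x = za) ∧ (∀ i : Fin v, Fintype.card {x // f x = some i} = u) ∧
    (∃ π : Perm (Fin v), ∀ x, f (a x) = (f x).map π) ∧
    (∃ π : Perm (Fin v), ∀ x, f ((g * b * g⁻¹) x) = (f x).map π))

lemma mem_BadII {a b : Perm α} {za zb : α} {u v : ℕ} {g : Perm α} :
    g ∈ BadII a b za zb u v ↔ g zb = za ∧ ∃ f : α → Option (Fin v),
    (∀ x, f x = none ↔ x = za) ∧ (∀ i : Fin v, Fintype.card {x // f x = some i} = u) ∧
    (∃ π : Perm (Fin v), ∀ x, f (a x) = (f x).map π) ∧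
    (∃ π : Perm (Fin v), ∀ x, f ((g * b * g⁻¹) x) = (f x).map π) := by
  rw [BadII, Finset.mem_filter]
  exact ⟨fun h => h.2, fun h => ⟨Finset.mem_univ _, h⟩⟩

lemma card_BadII {a b : Perm α} {r s : ℕ} {za zb : α} (ha : Good a r za) (hb : Good b s zb)
    {u v : ℕ} (hu : 1 ≤ u) :
    (BadII a b za zb u v).card ≤ v ^ ha.reps.card * v ^ hb.reps.card * (v ! * (u !) ^ v) := by
  have hF : ∀ g : BadII a b za zb u v, ∃ f : α → Option (Fin v),
      (∀ x, f x = none ↔ x = za) ∧ (∀ i : Fin v, Fintype.card {x // f x = some i} = u) ∧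
      (∃ π : Perm (Fin v), ∀ x, f (a x) = (f x).map π) ∧
      (∃ π : Perm (Fin v), ∀ x, f ((g.1 * b * g.1⁻¹) x) = (f x).map π) := by
    intro g
    exact (mem_BadII.1 g.2).2
  have hG : ∀ g : BadII a b za zb u v, g.1 zb = za := by
    intro g
    exact (mem_BadII.1 g.2).1
  choose F hF1 hF2 hF3 hF4 using hF
  -- the map
  let Ψ : (BadII a b za zb u v) × Perm (Fin v) → (α → Option (Fin v)) × (α → Option (Fin v)) :=
    fun q => (fun x => (F q.1 x).map q.2, fun x => (F q.1 (q.1.1 x)).map q.2)
  have hmaps : ∀ q ∈ (Finset.univ : Finset ((BadII a b za zb u v) × Perm (Fin v))),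
      Ψ q ∈ (Lab a za v) ×ˢ (Lab b zb v) := by
    rintro ⟨g, τ⟩ -
    rw [Finset.mem_product, Lab, Lab, Finset.mem_filter, Finset.mem_filter]
    refine ⟨⟨Finset.mem_univ _, ?_, ?_⟩, ⟨Finset.mem_univ _, ?_, ?_⟩⟩
    · intro x; simp only [Ψ, Option.map_eq_none_iff]; exact hF1 g x
    · obtain ⟨π, hπ⟩ := hF3 g
      refine ⟨τ * π * τ⁻¹, fun x => ?_⟩
      simp only [Ψ, hπ, Option.map_map]
      congr 1
      funext i
      simp [Perm.mul_apply]
    · intro x; simp only [Ψ, Option.map_eq_none_iff]; rw [hF1 g]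
      constructor
      · intro hx
        apply g.1.injective
        rw [hx, hG g]
      · rintro rfl
        exact hG g
    · obtain ⟨π, hπ⟩ := hF4 g
      refine ⟨τ * π * τ⁻¹, fun x => ?_⟩
      have h1 : F g (g.1 (b x)) = (F g (g.1 x)).map π := by
        simpa [Perm.mul_apply] using hπ (g.1 x)
      simp only [Ψ, h1, Option.map_map]
      congr 1
      funext i
      simp [Perm.mul_apply]
  have hfib : ∀ ff ∈ (Lab a za v) ×ˢ (Lab b zb v),
      (Finset.univ.filter (fun q : (BadII a b za zb u v) × Perm (Fin v) => Ψ q = ff)).card ≤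
        (u !) ^ v := by
    rintro ⟨f, f'⟩ -
    rcases Finset.eq_empty_or_nonempty
      (Finset.univ.filter (fun q : (BadII a b za zb u v) × Perm (Fin v) => Ψ q = (f, f')))
      with h0 | ⟨q0, hq0⟩
    · rw [h0]; simp
    rw [Finset.mem_filter] at hq0
    have hf : f = fun x => (F q0.1 x).map q0.2 := by
      have := hq0.2; simp only [Ψ, Prod.mk.injEq] at this; exact this.1.symm
    have hcard : ∏ i, (Fintype.card {x // f x = i})! = (u !) ^ v := by
      rw [Fintype.prod_option]
      have e0 : Fintype.card {x // f x = none} = 1 := by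
        rw [Fintype.card_eq_one_iff]
        refine ⟨⟨za, ?_⟩, ?_⟩
        · rw [hf]; simp only [Option.map_eq_none_iff]; exact (hF1 _ _).2 rfl
        · rintro ⟨y, hy⟩
          apply Subtype.ext
          rw [hf] at hy
          simp only [Option.map_eq_none_iff] at hy
          exact (hF1 _ _).1 hy
      have e1 : ∀ i : Fin v, Fintype.card {x // f x = some i} = u := by
        intro i
        rw [← hF2 q0.1 (q0.2⁻¹ i)]
        apply Fintype.card_congr
        apply Equiv.subtypeEquivRight
        intro x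
        rw [hf]
        simp only [Option.map_eq_some_iff]
        constructor
        · rintro ⟨j, hj, rfl⟩; simpa using hj
        · intro h; exact ⟨_, h, by simp⟩
      rw [e0]
      simp [e1]
    rw [← hcard]
    refine le_trans ?_ (card_comp_eq_le f f')
    apply Finset.card_le_card_of_injOn (fun q => q.1.1)
    · rintro ⟨g, τ⟩ hq
      simp only [Finset.coe_filter, Finset.mem_univ, true_and, Set.mem_ofPred_eq] at hq ⊢
      simp only [Ψ, Prod.mk.injEq] at hq
      rw [← hq.1, ← hq.2]
      rfl
    · rintro ⟨g, τ⟩ hq ⟨g', τ'⟩ hq' heq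
      simp only [Finset.coe_filter, Finset.mem_univ, true_and, Set.mem_ofPred_eq] at hq hq'
      have hgg : g = g' := Subtype.ext heq
      subst hgg
      simp only [Ψ, Prod.mk.injEq] at hq hq'
      have : τ = τ' := by
        ext i
        have hne : 0 < Fintype.card {x // F g x = some i} := by rw [hF2 g i]; omega
        rw [Fintype.card_pos_iff] at hne
        obtain ⟨⟨x, hx⟩⟩ := hne
        have h1 := congrFun (hq.1.trans hq'.1.symm) x
        simp only [hx, Option.map_some, Option.some.injEq] at h1
        rw [h1]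
      rw [this]
  have hmain := Finset.card_le_mul_card_image_of_maps_to hmaps ((u !) ^ v) hfib
  rw [Finset.card_univ, Fintype.card_prod, Fintype.card_perm, Fintype.card_fin,
    Finset.card_product, Fintype.card_coe] at hmain
  have hA := ha.card_Lab v
  have hB := hb.card_Lab v
  have hv : 0 < v ! := Nat.factorial_pos v
  apply Nat.le_of_mul_le_mul_right _ hv
  calc (BadII a b za zb u v).card * v !
      ≤ (u !) ^ v * ((Lab a za v).card * (Lab b zb v).card) := hmain
    _ ≤ (u !) ^ v * ((v ! * v ^ ha.reps.card) * (v ! * v ^ hb.reps.card)) := by gcongr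
    _ = v ^ ha.reps.card * v ^ hb.reps.card * (v ! * (u !) ^ v) * v ! := by ring

end

section affine

variable {p : ℕ} [Fact p.Prime]

lemma card_aff : (Finset.univ.filter (fun a : Perm (ZMod p) => IsAff a)).card ≤ p ^ 2 := by
  have : (Finset.univ.filter (fun a : Perm (ZMod p) => IsAff a)).card ≤
      (Finset.univ : Finset (ZMod p × ZMod p)).card := by
    apply Finset.card_le_card_of_injOn (fun a => (a 0, a 1))
    · intro a _; simp
    · intro a ha b hb hab
      simp only [Finset.coe_filter, Finset.mem_univ, true_and, Set.mem_ofPred_eq] at ha hb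
      simp only [Prod.mk.injEq] at hab
      exact ha.ext hb hab.1 hab.2
  refine this.trans ?_
  rw [Finset.card_univ, Fintype.card_prod, ZMod.card]
  exact le_of_eq (by ring)

/-- those `h` conjugating `a` into the affine group -/
noncomputable def TT (a : Perm (ZMod p)) : Finset (Perm (ZMod p)) :=
  Finset.univ.filter (fun h => IsAff (h⁻¹ * a * h))

lemma Good.card_TT {a : Perm (ZMod p)} {r : ℕ} {z : ZMod p} (h : Good a r z) :
    (TT a).card ≤ p ^ (h.reps.card + 3) := by
  have hinj : (TT a).card ≤ (Finset.univ : Finset ((ZMod p × ZMod p) × ((h.reps → ZMod p) × ZMod p))).card := by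
    apply Finset.card_le_card_of_injOn
      (fun t => (((t⁻¹ * a * t) 0, (t⁻¹ * a * t) 1), ((fun b => t⁻¹ b.1), t⁻¹ z)))
    · intro a _; simp
    · intro t ht t' ht' heq
      rw [Finset.mem_coe, TT, Finset.mem_filter] at ht ht'
      simp only [Prod.mk.injEq] at heq
      have hc : t⁻¹ * a * t = t'⁻¹ * a * t' := ht.2.ext ht'.2 heq.1.1 heq.1.2
      have : (fun x => t⁻¹ x) = (fun x => t'⁻¹ x) := by
        apply h.ext (c := (t⁻¹ * a * t))
        · intro x; simp [Perm.mul_apply]
        · intro x; rw [hc]; simp [Perm.mul_apply]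
        · exact heq.2.2
        · intro b hb
          exact congrFun heq.2.1 ⟨b, hb⟩
      have h2 : t⁻¹ = t'⁻¹ := by ext x; exact congrFun this x
      exact inv_injective h2
  refine hinj.trans ?_
  rw [Finset.card_univ, Fintype.card_prod, Fintype.card_prod, Fintype.card_prod,
    Fintype.card_fun, ZMod.card, Fintype.card_coe]
  exact le_of_eq (by ring)

/-- case (iii): both normalise a common regular subgroup -/
noncomputable def BadIII (a b : Perm (ZMod p)) : Finset (Perm (ZMod p)) :=
  Finset.univ.filter (fun g => ∃ h : Perm (ZMod p), IsAff (h⁻¹ * a * h) ∧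
    IsAff (h⁻¹ * (g * b * g⁻¹) * h))

lemma card_BadIII {a b : Perm (ZMod p)} {r s : ℕ} {za zb : ZMod p} (ha : Good a r za)
    (hb : Good b s zb) :
    (BadIII a b).card ≤ p ^ (ha.reps.card + 3) * p ^ (hb.reps.card + 3) := by
  have hsub : BadIII a b ⊆ ((TT a) ×ˢ (TT b)).image (fun q => q.1 * q.2⁻¹) := by
    intro g hg
    rw [BadIII, Finset.mem_filter] at hg
    obtain ⟨-, h, h1, h2⟩ := hg
    rw [Finset.mem_image]
    refine ⟨(h, g⁻¹ * h), ?_, by simp⟩
    rw [Finset.mem_product, TT, TT, Finset.mem_filter, Finset.mem_filter]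
    refine ⟨⟨Finset.mem_univ _, h1⟩, Finset.mem_univ _, ?_⟩
    convert h2 using 1
    group
  refine (Finset.card_le_card hsub).trans (Finset.card_image_le.trans ?_)
  rw [Finset.card_product]
  exact Nat.mul_le_mul ha.card_TT hb.card_TT

end affine

end MP7523db
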