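import Mathlib

/-! Basic definitions and binomial inequalities used for MP_7523db_al. -/

namespace MP7523db

section

open Nat

lemma choose_mul_le (a b i j : ℕ) : a.choose i * b.choose j ≤ (a + b).choose (i + j) := by
  rw [Nat.add_choose_eq]
  exact Finset.single_le_sum (f := fun ij : ℕ × ℕ => a.choose ij.1 * b.choose ij.2)
    (fun _ _ => Nat.zero_le _) (a := (i, j)) (by simp)

lemma choose_pow_le (k j r : ℕ) : (k.choose j) ^ r ≤ (r * k).choose (r * j) := by
  induction r with
  | zero => simp
  | succ r ih =>
    calc (k.choose j) ^ (r + 1) = (k.choose j) ^ r * k.choose j := by rw [pow_succ]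
      _ ≤ (r * k).choose (r * j) * k.choose j := by gcongr
      _ ≤ (r * k + k).choose (r * j + j) := choose_mul_le _ _ _ _
      _ = ((r + 1) * k).choose ((r + 1) * j) := by congr 1 <;> ring

end

section affine

open Equiv

variable {p : ℕ} [Fact p.Prime]

/-- affine permutations of `ZMod p` -/
def IsAff (a : Perm (ZMod p)) : Prop := ∃ u c : ZMod p, ∀ x, a x = u * x + c

lemma IsAff.ext {a b : Perm (ZMod p)} (ha : IsAff a) (hb : IsAff b) (h0 : a 0 = b 0)
    (h1 : a 1 = b 1) : a = b := by
  obtain ⟨u, c, h⟩ := ha
  obtain ⟨u', c', h'⟩ := hb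
  ext x
  rw [h, h'] at h0 h1
  have e1 : c = c' := by simpa using h0
  have e2 : u = u' := by
    have : u * 1 + c = u' * 1 + c' := h1
    rw [e1] at this
    simpa using this
  rw [h, h', e1, e2]

end affine

end MP7523db
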