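import Pool.Agent.Lib.MP_7523db_al.Group

/-! Soluble groups fixing one point and transitive on the remaining `p - 1 = 2 (mod 4)` points are
imprimitive there; classification of the soluble groups generated by two elements of prime order
with one fixed point each. -/

namespace MP7523db

open Equiv
open scoped Nat Classical

set_option linter.unusedSectionVars false
set_option linter.unusedDecidableInType false
set_option linter.unusedFintypeInType false

section

variable {α : Type*} [Fintype α] [DecidableEq α]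

/-- elements of `A` of order dividing `ℓ` -/
def torsionSub (A : Subgroup (Perm α)) (hA : ∀ x ∈ A, ∀ y ∈ A, x * y = y * x) (ℓ : ℕ) :
    Subgroup (Perm α) where
  carrier := {x | x ∈ A ∧ x ^ ℓ = 1}
  mul_mem' := by
    rintro x y ⟨hx, hx'⟩ ⟨hy, hy'⟩
    refine ⟨A.mul_mem hx hy, ?_⟩
    have : Commute x y := hA x hx y hy
    rw [this.mul_pow, hx', hy', one_mul]
  one_mem' := ⟨A.one_mem, one_pow _⟩
  inv_mem' := by
    rintro x ⟨hx, hx'⟩
    refine ⟨A.inv_mem hx, ?_⟩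
    rw [inv_pow, hx', inv_one]

theorem block_case (H : Subgroup (Perm α)) [Group.IsSolvable H] (z x1 : α)
    (hz : ∀ h ∈ H, h z = z) (hx1 : x1 ≠ z)
    (htr : ∀ x, x ≠ z → ∀ y, y ≠ z → ∃ h ∈ H, h x = y)
    (hcard : (Fintype.card α - 1) % 4 = 2) (hbig : 2 < Fintype.card α - 1) :
    ∃ (u v : ℕ) (f : α → Option (Fin v)), 2 ≤ u ∧ 2 ≤ v ∧ u * v = Fintype.card α - 1 ∧
      (∀ x, f x = none ↔ x = z) ∧ (∀ i : Fin v, Fintype.card {x // f x = some i} = u) ∧
      ∀ h ∈ H, ∃ π : Perm (Fin v), ∀ x, f (h x) = (f x).map π := by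
  -- nontriviality
  have hex : ∃ x2, x2 ≠ z ∧ x2 ≠ x1 := by
    by_contra hcon
    push Not at hcon
    have : (Finset.univ : Finset α) ⊆ {z, x1} := by
      intro x _
      by_cases hx : x = z
      · simp [hx]
      · simp [hcon x hx]
    have h1 := Finset.card_le_card this
    have h2 : ({z, x1} : Finset α).card ≤ 2 := Finset.card_le_two
    rw [Finset.card_univ] at h1
    omega
  obtain ⟨x2, hx2, hx21⟩ := hex
  have : Nontrivial H := by
    obtain ⟨h, hh, e⟩ := htr x1 hx1 x2 hx2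
    refine ⟨⟨h, hh⟩, 1, ?_⟩
    intro h1
    have h2 : h = 1 := congrArg Subtype.val h1
    rw [h2] at e
    exact hx21 e.symm
  obtain ⟨A0, hA0n, hA01, hA0c⟩ := exists_abelian H
  -- prime dividing card A0
  obtain ⟨w0, hw0, hw01⟩ : ∃ w ∈ A0, w ≠ 1 := by
    by_contra hcon
    push Not at hcon
    exact hA01 ((Subgroup.eq_bot_iff_forall A0).2 hcon)
  obtain ⟨A, hAdef⟩ : ∃ A : Subgroup (Perm α), A = A0.map H.subtype := ⟨_, rfl⟩
  have hmemA : ∀ x, x ∈ A ↔ ∃ hx : x ∈ H, (⟨x, hx⟩ : H) ∈ A0 := by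
    intro x
    rw [hAdef, Subgroup.mem_map]
    constructor
    · rintro ⟨y, hy, rfl⟩; exact ⟨y.2, hy⟩
    · rintro ⟨hx, h⟩; exact ⟨_, h, rfl⟩
  have hAH : ∀ x ∈ A, x ∈ H := fun x hx => ((hmemA x).1 hx).1
  have hAc : ∀ x ∈ A, ∀ y ∈ A, x * y = y * x := by
    intro x hx y hy
    obtain ⟨hx, hx'⟩ := (hmemA x).1 hx
    obtain ⟨hy, hy'⟩ := (hmemA y).1 hy
    exact congrArg Subtype.val (hA0c _ hx' _ hy')
  have hAn : ∀ h ∈ H, ∀ x ∈ A, h * x * h⁻¹ ∈ A := by
    intro h hh x hx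
    obtain ⟨hx, hx'⟩ := (hmemA x).1 hx
    rw [hmemA]
    exact ⟨H.mul_mem (H.mul_mem hh hx) (H.inv_mem hh), hA0n.conj_mem _ hx' ⟨h, hh⟩⟩
  have hw0A : (w0 : Perm α) ∈ A := (hmemA _).2 ⟨w0.2, hw0⟩
  have hw0ne : (w0 : Perm α) ≠ 1 := fun h => hw01 (Subtype.ext h)
  obtain ⟨ℓ, hℓdef⟩ : ∃ ℓ, ℓ = (orderOf (w0 : Perm α)).minFac := ⟨_, rfl⟩
  have hordne : orderOf (w0 : Perm α) ≠ 1 := fun h => hw0ne (orderOf_eq_one_iff.1 h)
  have hℓ : ℓ.Prime := by rw [hℓdef]; exact Nat.minFac_prime hordne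
  have hℓd : ℓ ∣ orderOf (w0 : Perm α) := by rw [hℓdef]; exact Nat.minFac_dvd _
  obtain ⟨e, he⟩ := hℓd
  have hordpos : 0 < orderOf (w0 : Perm α) := orderOf_pos _
  set w : Perm α := (w0 : Perm α) ^ e with hw
  have hwA : w ∈ A := A.pow_mem hw0A e
  have hwℓ : w ^ ℓ = 1 := by
    rw [hw, ← pow_mul, mul_comm, ← he, pow_orderOf_eq_one]
  have hwne : w ≠ 1 := by
    intro h1
    have h2 : orderOf (w0 : Perm α) ∣ e := orderOf_dvd_of_pow_eq_one h1
    have hepos : 0 < e := by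
      rcases Nat.eq_zero_or_pos e with h | h
      · rw [h] at he; omega
      · exact h
    have h3 := Nat.le_of_dvd hepos h2
    have h4 := hℓ.two_le
    nlinarith
  set K := torsionSub A hAc ℓ with hK
  have hmemK : ∀ x, x ∈ K ↔ x ∈ A ∧ x ^ ℓ = 1 := fun x => Iff.rfl
  have hKp : IsPGroup ℓ K := by
    intro x
    refine ⟨1, ?_⟩
    apply Subtype.ext
    rw [pow_one]
    exact ((hmemK _).1 x.2).2
  have hKH : ∀ x ∈ K, x ∈ H := fun x hx => hAH x ((hmemK x).1 hx).1
  have hKn : ∀ h ∈ H, ∀ x ∈ K, h * x * h⁻¹ ∈ K := by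
    intro h hh x hx
    rw [hmemK] at hx ⊢
    refine ⟨hAn h hh x hx.1, ?_⟩
    rw [conj_pow, hx.2]; simp
  -- orbit relation
  let q : α → Quotient (MulAction.orbitRel K α) := fun x => Quotient.mk _ x
  have hq : ∀ x y, q x = q y ↔ ∃ k ∈ K, k y = x := by
    intro x y
    show (Quotient.mk (MulAction.orbitRel K α) x = Quotient.mk (MulAction.orbitRel K α) y) ↔ _
    rw [Quotient.eq, MulAction.orbitRel_apply, MulAction.mem_orbit_iff]
    constructor
    · rintro ⟨k, hk⟩; exact ⟨k.1, k.2, hk⟩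
    · rintro ⟨k, hk, h⟩; exact ⟨⟨k, hk⟩, h⟩
  have hqz : ∀ x, q x = q z ↔ x = z := by
    intro x
    rw [hq]
    constructor
    · rintro ⟨k, hk, h⟩; rw [← h]; exact hz k (hKH k hk)
    · rintro rfl; exact ⟨1, K.one_mem, rfl⟩
  have hqh : ∀ h ∈ H, ∀ x y, q x = q y → q (h x) = q (h y) := by
    intro h hh x y hxy
    rw [hq] at hxy ⊢
    obtain ⟨k, hk, e⟩ := hxy
    refine ⟨h * k * h⁻¹, hKn h hh k hk, ?_⟩
    simp [Perm.mul_apply, e]
  -- class sizes
  obtain ⟨u, hu⟩ : ∃ u, u = Fintype.card {x // q x = q x1} := ⟨_, rfl⟩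
  have hcls : ∀ y, y ≠ z → Fintype.card {x // q x = q y} = u := by
    intro y hy
    obtain ⟨h, hh, rfl⟩ := htr x1 hx1 y hy
    rw [hu]
    apply Fintype.card_congr
    refine ⟨fun x => ⟨h⁻¹ x.1, ?_⟩, fun x => ⟨h x.1, hqh h hh _ _ x.2⟩, ?_, ?_⟩
    · have := hqh h⁻¹ (H.inv_mem hh) _ _ x.2
      simpa using this
    · intro x; simp
    · intro x; simp
  have hupow : ∃ n : ℕ, u = ℓ ^ n := by
    have : Fact ℓ.Prime := ⟨hℓ⟩
    obtain ⟨n, hn⟩ := hKp.card_orbit x1
    refine ⟨n, ?_⟩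
    rw [← hn, hu, ← Nat.card_eq_fintype_card]
    apply Nat.card_congr
    apply Equiv.subtypeEquivRight
    intro x
    rw [hq, MulAction.mem_orbit_iff]
    constructor
    · rintro ⟨k, hk, h⟩; exact ⟨⟨k, hk⟩, h⟩
    · rintro ⟨k, hk⟩; exact ⟨k.1, k.2, hk⟩
  have hu2 : 2 ≤ u := by
    obtain ⟨y, hy⟩ : ∃ y, w y ≠ y := by
      by_contra hcon
      push Not at hcon
      exact hwne (Equiv.ext hcon)
    have hyz : y ≠ z := by
      rintro rfl
      exact hy (hz w (hAH w hwA))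
    rw [← hcls y hyz]
    have hwK : w ∈ K := ⟨hwA, hwℓ⟩
    have h1 : 1 < Fintype.card {x // q x = q y} := by
      rw [Fintype.one_lt_card_iff]
      refine ⟨⟨w y, (hq _ _).2 ⟨w, hwK, rfl⟩⟩, ⟨y, rfl⟩, ?_⟩
      intro h; exact hy (congrArg Subtype.val h)
    omega
  -- labels
  obtain ⟨v, hv⟩ : ∃ v, v = Fintype.card {c : Quotient (MulAction.orbitRel K α) // c ≠ q z} :=
    ⟨_, rfl⟩
  let e : {c : Quotient (MulAction.orbitRel K α) // c ≠ q z} ≃ Fin v :=
    Fintype.equivFinOfCardEq hv.symm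
  let f : α → Option (Fin v) := fun x =>
    if hx : x = z then none else some (e ⟨q x, fun h => hx ((hqz x).1 h)⟩)
  have hf1 : ∀ x, f x = none ↔ x = z := by
    intro x
    by_cases hx : x = z
    · simp [f, hx]
    · simp [f, hx]
  have hf2 : ∀ x (hx : x ≠ z), f x = some (e ⟨q x, fun h => hx ((hqz x).1 h)⟩) := by
    intro x hx; simp [f, hx]
  have hf3 : ∀ x y, x ≠ z → y ≠ z → (f x = f y ↔ q x = q y) := by
    intro x y hx hy
    rw [hf2 x hx, hf2 y hy]
    simp
  have hsurj : ∀ i : Fin v, ∃ x, x ≠ z ∧ f x = some i := by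
    intro i
    obtain ⟨x, hx⟩ := Quotient.exists_rep (e.symm i).1
    have hx' : q x = (e.symm i).1 := hx
    have hxz : x ≠ z := by
      intro h
      apply (e.symm i).2
      rw [← hx', h]
    refine ⟨x, hxz, ?_⟩
    rw [hf2 x hxz]
    congr 1
    rw [← e.apply_symm_apply i]
    congr 1
    exact Subtype.ext hx'
  have hf4 : ∀ i : Fin v, Fintype.card {x // f x = some i} = u := by
    intro i
    obtain ⟨y, hy, hyi⟩ := hsurj i
    rw [← hcls y hy]
    apply Fintype.card_congr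
    apply Equiv.subtypeEquivRight
    intro x
    rw [← hyi]
    constructor
    · intro h
      have hx : x ≠ z := by
        intro h0
        rw [(hf1 x).2 h0, hyi] at h
        exact absurd h (by simp)
      exact (hf3 x y hx hy).1 h
    · intro h
      have hx : x ≠ z := by
        intro h0
        apply hy
        rw [h0] at h
        exact (hqz y).1 h.symm
      exact (hf3 x y hx hy).2 h
  have huv : u * v = Fintype.card α - 1 := by
    have h1 : Fintype.card α = ∑ o : Option (Fin v), Fintype.card {x // f x = o} := by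
      rw [← Fintype.card_sigma]
      exact Fintype.card_congr (Equiv.sigmaFiberEquiv f).symm
    rw [Fintype.sum_option] at h1
    have h2 : Fintype.card {x // f x = none} = 1 := by
      rw [Fintype.card_eq_one_iff]
      refine ⟨⟨z, (hf1 z).2 rfl⟩, ?_⟩
      rintro ⟨y, hy⟩
      exact Subtype.ext ((hf1 y).1 hy)
    rw [h2] at h1
    simp only [hf4, Finset.sum_const, Finset.card_univ, Fintype.card_fin, smul_eq_mul] at h1
    rw [h1, mul_comm]
    omega
  have hv2 : 2 ≤ v := by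
    by_contra hcon
    have hv01 : v = 0 ∨ v = 1 := by omega
    rcases hv01 with h0 | h0
    · rw [h0] at huv; omega
    · rw [h0, mul_one] at huv
      obtain ⟨n, hn⟩ := hupow
      rw [← huv, hn] at hcard hbig
      -- ℓ = 2
      have h2dvd : 2 ∣ ℓ ^ n := by omega
      have h2 : ℓ = 2 := ((Nat.prime_dvd_prime_iff_eq Nat.prime_two hℓ).1
        (Nat.prime_two.dvd_of_dvd_pow h2dvd)).symm
      subst h2
      rcases n with _ | _ | n
      · simp at hbig
      · simp at hbig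
      · rw [pow_succ, pow_succ] at hcard
        omega
  refine ⟨u, v, f, hu2, hv2, huv, hf1, hf4, ?_⟩
  intro h hh
  choose ρ hρz hρ using hsurj
  have hhz : ∀ h ∈ H, ∀ x, x ≠ z → h x ≠ z := by
    intro h hh x hx h0
    apply hx
    apply h.injective
    rw [h0, hz h hh]
  let σ : Fin v → Fin v := fun i => e ⟨q (h (ρ i)), fun h0 => hhz h hh _ (hρz i) ((hqz _).1 h0)⟩
  have hσ : ∀ i, f (h (ρ i)) = some (σ i) := fun i => hf2 _ (hhz h hh _ (hρz i))
  have hσinj : Function.Injective σ := by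
    intro i j hij
    have h1 : f (h (ρ i)) = f (h (ρ j)) := by rw [hσ, hσ, hij]
    rw [hf3 _ _ (hhz h hh _ (hρz i)) (hhz h hh _ (hρz j))] at h1
    have h2 := hqh h⁻¹ (H.inv_mem hh) _ _ h1
    have h3 : q (ρ i) = q (ρ j) := by simpa using h2
    rw [← hf3 _ _ (hρz i) (hρz j), hρ, hρ] at h3
    exact Option.some.inj h3
  refine ⟨Equiv.ofBijective σ (Finite.injective_iff_bijective.1 hσinj), ?_⟩
  intro x
  by_cases hx : x = z
  · rw [hx, hz h hh, (hf1 z).2 rfl]; rfl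
  · obtain ⟨i, hi⟩ : ∃ i, f x = some i := ⟨_, hf2 x hx⟩
    have h1 : f x = f (ρ i) := by rw [hi, hρ]
    rw [hf3 _ _ hx (hρz i)] at h1
    have h2 := hqh h hh _ _ h1
    rw [← hf3 _ _ (hhz h hh _ hx) (hhz h hh _ (hρz i)), hσ] at h2
    rw [h2, hi]; rfl

end

end MP7523db
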