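import Pool.Agent.Lib.MP_7523db_al.Basic

/-! Elementary inequalities used for MP_7523db_al. -/

namespace MP7523db

open Nat

lemma fact_grid (u v : ℕ) : (u !) ^ v * (v !) ^ u ≤ (u * v)! := by
  induction u with
  | zero => simp
  | succ u ih =>
    have h1 : ((u + 1)!) ^ v * (v !) ^ (u + 1) = ((u !) ^ v * (v !) ^ u) * ((u + 1) ^ v * v !) := by
      rw [Nat.factorial_succ, mul_pow, pow_succ]; ring
    have h2 : ∀ w : ℕ, w ≤ v → (u * v)! * ((u + 1) ^ w * w !) ≤ (u * v + w)! := by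
      intro w
      induction w with
      | zero => intro _; simp
      | succ w ihw =>
        intro hw
        have := ihw (by omega)
        calc (u * v)! * ((u + 1) ^ (w + 1) * (w + 1)!)
            = ((u * v)! * ((u + 1) ^ w * w !)) * ((u + 1) * (w + 1)) := by
              rw [Nat.factorial_succ, pow_succ]; ring
          _ ≤ (u * v + w)! * (u * v + w + 1) := by
              apply Nat.mul_le_mul this
              have : u * (w + 1) ≤ u * v := Nat.mul_le_mul_left _ hw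
              nlinarith
          _ = (u * v + (w + 1))! := by
              rw [← add_assoc, Nat.factorial_succ]; ring
    calc ((u + 1)!) ^ v * (v !) ^ (u + 1)
        = ((u !) ^ v * (v !) ^ u) * ((u + 1) ^ v * v !) := h1
      _ ≤ (u * v)! * ((u + 1) ^ v * v !) := Nat.mul_le_mul_right _ ih
      _ ≤ (u * v + v)! := h2 v le_rfl
      _ = ((u + 1) * v)! := by congr 1; ring

lemma succ_pow_le (v : ℕ) : (v + 1) ^ v ≤ 3 * v ^ v := by
  rcases Nat.eq_zero_or_pos v with rfl | hv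
  · simp
  have h : ((v : ℝ) + 1) ^ v ≤ 3 * (v : ℝ) ^ v := by
    have hv' : (0 : ℝ) < v := by exact_mod_cast hv
    have h1 : ((v : ℝ) + 1) ^ v = (1 + 1 / (v : ℝ)) ^ v * (v : ℝ) ^ v := by
      rw [← mul_pow]; congr 1; field_simp
    have h2 : (1 + 1 / (v : ℝ)) ^ v ≤ Real.exp 1 := by
      have := Real.add_one_le_exp (1 / (v : ℝ))
      calc (1 + 1 / (v : ℝ)) ^ v ≤ (Real.exp (1 / (v : ℝ))) ^ v := by
            apply pow_le_pow_left₀ (by positivity); linarith
        _ = Real.exp 1 := by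
            rw [← Real.exp_nat_mul]; congr 1; field_simp
    have h3 : Real.exp 1 ≤ 3 := by
      have := Real.exp_one_lt_d9; linarith
    rw [h1]
    apply mul_le_mul_of_nonneg_right (h2.trans h3) (by positivity)
  exact_mod_cast h

lemma pow_le_fact (v : ℕ) (hv : 2 ≤ v) : 2 ^ v * v ^ (4 * v) ≤ (v !) ^ 11 := by
  induction v, hv using Nat.le_induction with
  | base => decide
  | succ v hv ih =>
    have h1 : (v + 1) ^ (4 * (v + 1)) ≤ (81 * v ^ (4 * v)) * (v + 1) ^ 4 := by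
      have := succ_pow_le v
      calc (v + 1) ^ (4 * (v + 1)) = ((v + 1) ^ v) ^ 4 * (v + 1) ^ 4 := by
            rw [← pow_mul, ← pow_add]; congr 1; ring
        _ ≤ (3 * v ^ v) ^ 4 * (v + 1) ^ 4 := by gcongr
        _ = (81 * v ^ (4 * v)) * (v + 1) ^ 4 := by
            rw [mul_pow, ← pow_mul, mul_comm v 4]; norm_num
    have h2 : 162 ≤ (v + 1) ^ 7 := by
      calc 162 ≤ 3 ^ 7 := by norm_num
        _ ≤ (v + 1) ^ 7 := by gcongr; omega
    calc 2 ^ (v + 1) * (v + 1) ^ (4 * (v + 1))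
        ≤ 2 ^ (v + 1) * ((81 * v ^ (4 * v)) * (v + 1) ^ 4) := by gcongr
      _ = (2 ^ v * v ^ (4 * v)) * (162 * (v + 1) ^ 4) := by rw [pow_succ]; ring
      _ ≤ (v !) ^ 11 * ((v + 1) ^ 7 * (v + 1) ^ 4) := by gcongr
      _ = ((v + 1)!) ^ 11 := by rw [Nat.factorial_succ, mul_pow, ← pow_add]; ring

/-- all size requirements on `p` -/
structure Large (p : ℕ) : Prop where
  ge : 100000 ≤ p
  pow66 : p ^ 66 ≤ 2 ^ ((p - 1) / 2)

lemma exists_large : ∃ P0, ∀ p ≥ P0, Large p := by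
  have h := isLittleO_pow_const_const_pow_of_one_lt (R := ℝ) 67 (r := 2) (by norm_num)
  have h2 := h.def (c := 1) (by norm_num)
  rw [Filter.eventually_atTop] at h2
  obtain ⟨N, hN⟩ := h2
  obtain ⟨K, hK⟩ : ∃ K : ℕ, K = 4 ^ 66 := ⟨_, rfl⟩
  refine ⟨2 * (N + K) + 100000, fun p hp => ⟨by omega, ?_⟩⟩
  set n := (p - 1) / 2 with hn
  have hnN : N ≤ n := by omega
  have hn4 : K ≤ n := by omega
  have h3 := hN n hnN
  have h4 : n ^ 67 ≤ 2 ^ n := by
    have : ((n : ℝ) ^ 67) ≤ 2 ^ n := by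
      simpa using h3
    exact_mod_cast this
  calc p ^ 66 ≤ (4 * n) ^ 66 := by gcongr; omega
    _ = K * n ^ 66 := by rw [mul_pow, hK]
    _ ≤ n * n ^ 66 := by gcongr
    _ = n ^ 67 := by ring
    _ ≤ 2 ^ n := h4

lemma case_ii {p u v k l r s : ℕ} (hp : Large p) (hu : 2 ≤ u) (hv : 2 ≤ v) (huv : u * v = p - 1)
    (hr : 11 ≤ r) (hs : 11 ≤ s) (hk : r * k = p - 1) (hl : s * l = p - 1) :
    p ^ 6 * (v ^ k * v ^ l * (v ! * (u !) ^ v)) ≤ (p - 1)! := by
  have hgrid := fact_grid u v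
  rw [huv] at hgrid
  have key : p ^ 6 * (v ^ k * v ^ l) ≤ (v !) ^ (u - 1) := by
    have hpos : 0 < 11 := by norm_num
    rw [← Nat.pow_le_pow_iff_left (n := 11) (by norm_num)]
    have h11 : 11 * (k + l) ≤ 4 * v * (u - 1) := by
      have h1 : 11 * k ≤ u * v := by rw [huv, ← hk]; exact Nat.mul_le_mul_right _ hr
      have h2 : 11 * l ≤ u * v := by rw [huv, ← hl]; exact Nat.mul_le_mul_right _ hs
      obtain ⟨w, rfl⟩ : ∃ w, u = w + 1 := ⟨u - 1, by omega⟩
      have hw : 1 ≤ w := by omega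
      have : v ≤ w * v := Nat.le_mul_of_pos_left _ hw
      simp only [Nat.add_sub_cancel]
      nlinarith
    have hv0 : 0 < v := by omega
    calc (p ^ 6 * (v ^ k * v ^ l)) ^ 11 = p ^ 66 * v ^ (11 * (k + l)) := by
          rw [mul_pow, ← pow_mul, ← pow_add, ← pow_mul]; congr 2; ring
      _ ≤ 2 ^ ((p - 1) / 2) * v ^ (4 * v * (u - 1)) := by
          apply Nat.mul_le_mul hp.pow66
          exact Nat.pow_le_pow_right hv0 h11
      _ ≤ 2 ^ (v * (u - 1)) * v ^ (4 * v * (u - 1)) := by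
          apply Nat.mul_le_mul_right
          apply Nat.pow_le_pow_right (by norm_num)
          rw [← huv]
          obtain ⟨w, rfl⟩ : ∃ w, u = w + 1 := ⟨u - 1, by omega⟩
          have hw : 1 ≤ w := by omega
          have : v ≤ w * v := Nat.le_mul_of_pos_left _ hw
          simp only [Nat.add_sub_cancel]
          apply Nat.div_le_of_le_mul
          nlinarith
      _ = (2 ^ v * v ^ (4 * v)) ^ (u - 1) := by
          rw [mul_pow, ← pow_mul, ← pow_mul]
      _ ≤ ((v !) ^ 11) ^ (u - 1) := by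
          apply Nat.pow_le_pow_left (pow_le_fact v hv)
      _ = ((v !) ^ (u - 1)) ^ 11 := by rw [← pow_mul, ← pow_mul, mul_comm]
  calc p ^ 6 * (v ^ k * v ^ l * (v ! * (u !) ^ v))
      = (p ^ 6 * (v ^ k * v ^ l)) * (v ! * (u !) ^ v) := by ring
    _ ≤ (v !) ^ (u - 1) * (v ! * (u !) ^ v) := Nat.mul_le_mul_right _ key
    _ = (u !) ^ v * ((v !) ^ (u - 1) * v !) := by ring
    _ = (u !) ^ v * (v !) ^ u := by
        rw [← pow_succ]; congr 2; omega
    _ ≤ (p - 1)! := hgrid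

lemma choose_ge {p m : ℕ} (hp : 100000 ≤ p) (h1 : 11 ≤ m) (h2 : m + 11 ≤ p) :
    p ^ 8 ≤ p.choose m := by
  -- reduce to `m ≤ p/2`
  wlog hm : 2 * m ≤ p generalizing m with H
  · have := H (m := p - m) (by omega) (by omega) (by omega)
    rwa [Nat.choose_symm (by omega)] at this
  have h3 : (p - m + 11).choose 11 ≤ p.choose m := by
    have := choose_mul_le (p - m + 11) (m - 11) 11 (m - 11)
    rw [Nat.choose_self, mul_one] at this
    convert this using 2 <;> omega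
  refine le_trans ?_ h3
  have h4 := Nat.pow_le_choose (α := ℚ) 11 (p - m + 11)
  have h5 : p - m + 11 + 1 - 11 = p - m + 1 := by omega
  rw [h5] at h4
  have h6 : ((p : ℚ) / 2) ≤ ((p - m + 1 : ℕ) : ℚ) := by
    have : p ≤ 2 * (p - m + 1) := by omega
    have : (p : ℚ) ≤ 2 * ((p - m + 1 : ℕ) : ℚ) := by exact_mod_cast this
    linarith
  have hp' : (100000 : ℚ) ≤ p := by exact_mod_cast hp
  have h7 : ((p : ℚ) ^ 8) ≤ ((p - m + 11).choose 11 : ℚ) := by
    refine le_trans ?_ h4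
    rw [le_div_iff₀ (by positivity)]
    calc (p : ℚ) ^ 8 * ((11 ! : ℕ) : ℚ) ≤ (p : ℚ) ^ 8 * ((p : ℚ) ^ 3 / 2 ^ 11) := by
          apply mul_le_mul_of_nonneg_left _ (by positivity)
          rw [le_div_iff₀ (by positivity)]
          have h8 : (100000 : ℚ) ^ 3 ≤ (p : ℚ) ^ 3 := by gcongr
          have h9 : ((11 ! : ℕ) : ℚ) * 2 ^ 11 ≤ 100000 ^ 3 := by
            norm_num [Nat.factorial]
          exact h9.trans h8
      _ = ((p : ℚ) / 2) ^ 11 := by ring
      _ ≤ ((p - m + 1 : ℕ) : ℚ) ^ 11 := by gcongr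
  exact_mod_cast h7

lemma case_i {p m A B : ℕ} (hp : 100000 ≤ p) (h1 : 11 ≤ m) (h2 : m + 11 ≤ p)
    (hA : A ^ 11 ≤ p.choose m) (hB : B ^ 11 ≤ p.choose m) :
    p ^ 6 * (A * B) ≤ p.choose m := by
  have hC := choose_ge hp h1 h2
  set C := p.choose m with hCdef
  rw [← Nat.pow_le_pow_iff_left (n := 11) (by norm_num)]
  calc (p ^ 6 * (A * B)) ^ 11 = p ^ 66 * (A ^ 11 * B ^ 11) := by
        rw [mul_pow, mul_pow, ← pow_mul]
    _ ≤ p ^ 72 * (C * C) := by
        apply Nat.mul_le_mul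
        · exact Nat.pow_le_pow_right (by omega) (by norm_num)
        · exact Nat.mul_le_mul hA hB
    _ = (p ^ 8) ^ 9 * (C * C) := by rw [← pow_mul]
    _ ≤ C ^ 9 * (C * C) := by gcongr
    _ = C ^ 11 := by ring

lemma case_i' {p m A B : ℕ} (hp : 100000 ≤ p) (h1 : 11 ≤ m) (h2 : m + 11 ≤ p)
    (hA : A ^ 11 ≤ p.choose m) (hB : B ^ 11 ≤ p.choose m) :
    p ^ 6 * (A * B * (m ! * (p - m)!)) ≤ p ! := by
  have h := case_i hp h1 h2 hA hB
  calc p ^ 6 * (A * B * (m ! * (p - m)!)) = p ^ 6 * (A * B) * (m ! * (p - m)!) := by ring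
    _ ≤ p.choose m * (m ! * (p - m)!) := Nat.mul_le_mul_right _ h
    _ = p ! := by
        rw [← mul_assoc, Nat.choose_mul_factorial_mul_factorial (by omega)]

lemma case_iii {p k l r s : ℕ} (hp : 100000 ≤ p) 
    (hr : 11 ≤ r) (hs : 11 ≤ s) (hk : r * k = p - 1) (hl : s * l = p - 1) :
    p ^ 6 * (p ^ (k + 3) * p ^ (l + 3)) ≤ p ! := by
  have h1 : 11 * k ≤ p - 1 := by rw [← hk]; exact Nat.mul_le_mul_right _ hr
  have h2 : 11 * l ≤ p - 1 := by rw [← hl]; exact Nat.mul_le_mul_right _ hs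
  obtain ⟨n, hn⟩ : ∃ n, n = p / 2 := ⟨_, rfl⟩
  have h3 : n ! * (n + 1) ^ (p - n) ≤ (n + (p - n))! := Nat.factorial_mul_pow_le_factorial
  rw [show n + (p - n) = p by omega] at h3
  refine le_trans ?_ h3
  have h4 : p ≤ (n + 1) ^ 2 := by
    have : p ≤ 2 * (n + 1) := by omega
    nlinarith
  have h5 : 2 * (6 + (k + 3 + (l + 3))) ≤ p - n := by omega
  calc p ^ 6 * (p ^ (k + 3) * p ^ (l + 3)) = p ^ (6 + (k + 3 + (l + 3))) := by
        rw [← pow_add, ← pow_add]
    _ ≤ ((n + 1) ^ 2) ^ (6 + (k + 3 + (l + 3))) := Nat.pow_le_pow_left h4 _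
    _ = (n + 1) ^ (2 * (6 + (k + 3 + (l + 3)))) := by rw [← pow_mul]
    _ ≤ (n + 1) ^ (p - n) := Nat.pow_le_pow_right (by omega) h5
    _ ≤ n ! * (n + 1) ^ (p - n) := Nat.le_mul_of_pos_left _ (Nat.factorial_pos n)

end MP7523db
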