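import Pool.Agent.Lib.MP_7523db_al.Blocks
import Pool.Agent.Lib.MP_7523db_al.Bad
import Pool.Agent.Lib.MP_7523db_al.Numerics

/-! Classification and the existence of a good conjugator, MP_7523db_al. -/

namespace MP7523db

open Equiv
open scoped Nat Classical

set_option linter.unusedSectionVars false
set_option linter.unusedDecidableInType false
set_option linter.unusedFintypeInType false

section

variable {α : Type*} [Fintype α] [DecidableEq α]

lemma Good.conj {b : Perm α} {s : ℕ} {z : α} (h : Good b s z) (g : Perm α) :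
    Good (g * b * g⁻¹) s (g z) := by
  refine ⟨h.prime, ?_, ?_⟩
  · rw [conj_pow, h.pow_eq]; simp
  · intro x
    have : (g * b * g⁻¹) x = x ↔ b (g⁻¹ x) = g⁻¹ x := by
      constructor
      · intro hx
        apply g.injective
        simpa [Perm.mul_apply] using hx
      · intro hx
        simp only [Perm.mul_apply]
        rw [hx]; simp
    rw [this, h.fix]
    constructor
    · intro hx; rw [← hx]; simp
    · intro hx; rw [hx]; simp

lemma Good.inv_big {a : Perm α} {r : ℕ} {z : α} (h : Good a r z) (hr : 11 ≤ r) {S : Finset α}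
    (hS : ∀ x, a x ∈ S ↔ x ∈ S) {x : α} (hx : x ∈ S) (hxz : x ≠ z) : 11 ≤ (S.erase z).card := by
  rw [h.card_inv S hS]
  have : 0 < (S ∩ h.reps).card := by
    by_contra hcon
    have h0 : (S ∩ h.reps).card = 0 := by omega
    have h1 := h.card_inv S hS
    rw [h0, mul_zero, Finset.card_eq_zero] at h1
    have : x ∈ S.erase z := Finset.mem_erase.2 ⟨hxz, hx⟩
    rw [h1] at this
    exact absurd this (Finset.notMem_empty _)
  nlinarith

end

variable {p : ℕ} [Fact p.Prime]

theorem classify (hp4 : (p - 1) % 4 = 2) (hbig : 2 < p - 1) {a c : Perm (ZMod p)} {r s : ℕ}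
    {za zc : ZMod p} (ha : Good a r za) (hc : Good c s zc) (hr : 11 ≤ r)
    (hsol : Group.IsSolvable (Subgroup.closure ({a, c} : Set (Perm (ZMod p))))) :
    (∃ S : Finset (ZMod p), 11 ≤ S.card ∧ S.card + 11 ≤ p ∧ (∀ x, a x ∈ S ↔ x ∈ S) ∧
      (∀ x, c x ∈ S ↔ x ∈ S)) ∨
    (∃ h : Perm (ZMod p), IsAff (h⁻¹ * a * h) ∧ IsAff (h⁻¹ * c * h)) ∨
    (zc = za ∧ ∃ (u v : ℕ) (f : ZMod p → Option (Fin v)), 2 ≤ u ∧ 2 ≤ v ∧ u * v = p - 1 ∧
      (∀ x, f x = none ↔ x = za) ∧ (∀ i : Fin v, Fintype.card {x // f x = some i} = u) ∧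
      (∃ π : Perm (Fin v), ∀ x, f (a x) = (f x).map π) ∧
      (∃ π : Perm (Fin v), ∀ x, f (c x) = (f x).map π)) := by
  set H : Subgroup (Perm (ZMod p)) := Subgroup.closure ({a, c} : Set (Perm (ZMod p))) with hH
  have haH : a ∈ H := Subgroup.subset_closure (by simp)
  have hcH : c ∈ H := Subgroup.subset_closure (by simp)
  let O : ZMod p → Finset (ZMod p) := fun x => Finset.univ.filter (fun y => ∃ h ∈ H, h x = y)
  have hO : ∀ x y, y ∈ O x ↔ ∃ h ∈ H, h x = y := fun x y => by simp [O]
  have hOinv : ∀ x, ∀ g ∈ H, ∀ y, g y ∈ O x ↔ y ∈ O x := by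
    intro x g hg y
    rw [hO, hO]
    constructor
    · rintro ⟨h, hh, e⟩
      exact ⟨g⁻¹ * h, H.mul_mem (H.inv_mem hg) hh, by simp [Perm.mul_apply, e]⟩
    · rintro ⟨h, hh, e⟩
      exact ⟨g * h, H.mul_mem hg hh, by simp [Perm.mul_apply, e]⟩
  have hOself : ∀ x, x ∈ O x := fun x => (hO x x).2 ⟨1, H.one_mem, rfl⟩
  have hcardp : Fintype.card (ZMod p) = p := ZMod.card p
  by_cases h1 : O za = Finset.univ
  · -- transitive
    right; left
    obtain ⟨h, hh⟩ := transitive_case H (by
      intro x y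
      have hx : x ∈ O za := by rw [h1]; exact Finset.mem_univ _
      have hy : y ∈ O za := by rw [h1]; exact Finset.mem_univ _
      rw [hO] at hx hy
      obtain ⟨g1, hg1, e1⟩ := hx
      obtain ⟨g2, hg2, e2⟩ := hy
      exact ⟨g2 * g1⁻¹, H.mul_mem hg2 (H.inv_mem hg1), by rw [← e1, ← e2]; simp [Perm.mul_apply]⟩)
    exact ⟨h, hh a haH, hh c hcH⟩
  · obtain ⟨y, hy⟩ : ∃ y, y ∉ O za := by
      by_contra hcon
      push Not at hcon
      exact h1 (Finset.eq_univ_iff_forall.2 hcon)
    have hyz : y ≠ za := fun h => hy (h ▸ hOself za)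
    -- complement of an invariant set containing za, missing y
    have hcompl : ∀ S : Finset (ZMod p), (∀ x, a x ∈ S ↔ x ∈ S) → za ∈ S → ∀ y, y ∉ S →
        S.card + 11 ≤ p := by
      intro S hS hzS y hyS
      have h2 : ∀ x, a x ∈ Sᶜ ↔ x ∈ Sᶜ := fun x => by simp [hS x]
      have h3 := ha.inv_big hr h2 (x := y) (by simpa using hyS) (by rintro rfl; exact hyS hzS)
      have h4 : (Sᶜ).erase za = Sᶜ := Finset.erase_eq_of_notMem (by simpa using hzS)
      rw [h4, Finset.card_compl, hcardp] at h3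
      omega
    by_cases h2 : ∃ x ∈ O za, x ≠ za
    · obtain ⟨x, hx, hxz⟩ := h2
      left
      refine ⟨O za, ?_, hcompl (O za) (hOinv za a haH) (hOself za) y hy, hOinv za a haH,
        hOinv za c hcH⟩
      have := ha.inv_big hr (hOinv za a haH) hx hxz
      exact this.trans (Finset.card_le_card (Finset.erase_subset _ _))
    · push Not at h2
      have hfixz : ∀ h ∈ H, h za = za := fun h hh => h2 _ ((hO _ _).2 ⟨h, hh, rfl⟩)
      have hzc : zc = za := ((hc.fix za).1 (hfixz c hcH)).symm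
      by_cases h3 : ∃ w, w ≠ za ∧ w ∉ O y
      · obtain ⟨w, hwz, hwy⟩ := h3
        left
        have hzy : za ∉ O y := by
          intro h
          rw [hO] at h
          obtain ⟨h, hh, e⟩ := h
          apply hyz
          apply h.injective
          rw [e, hfixz h hh]
        refine ⟨O y, ?_, ?_, hOinv y a haH, hOinv y c hcH⟩
        · have := ha.inv_big hr (hOinv y a haH) (hOself y) hyz
          exact this.trans (Finset.card_le_card (Finset.erase_subset _ _))
        · have h4 : ∀ x, a x ∈ (O y)ᶜ ↔ x ∈ (O y)ᶜ := fun x => by simp [hOinv y a haH x]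
          have h5 := ha.inv_big hr h4 (x := w) (by simpa using hwy) hwz
          have h6 := (Finset.card_le_card (Finset.erase_subset za ((O y)ᶜ)))
          rw [Finset.card_compl, hcardp] at h6
          have h7 : (O y).card ≤ p := by
            have := Finset.card_le_univ (O y)
            rwa [hcardp] at this
          omega
      · push Not at h3
        right; right
        refine ⟨hzc, ?_⟩
        obtain ⟨u, v, f, hu, hv, huv, hf1, hf2, hf3⟩ := block_case H za y hfixz hyz (by
          intro x hx x' hx'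
          have h4 := h3 x hx
          have h5 := h3 x' hx'
          rw [hO] at h4 h5
          obtain ⟨g1, hg1, e1⟩ := h4
          obtain ⟨g2, hg2, e2⟩ := h5
          exact ⟨g2 * g1⁻¹, H.mul_mem hg2 (H.inv_mem hg1), by
            rw [← e1, ← e2]; simp [Perm.mul_apply]⟩) (by rw [hcardp]; exact hp4)
          (by rw [hcardp]; exact hbig)
        rw [hcardp] at huv
        exact ⟨u, v, f, hu, hv, huv, hf1, hf2, hf3 a haH, hf3 c hcH⟩

/-- conjugators making the pair generate a soluble group -/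
noncomputable def BadPair (a b : Perm (ZMod p)) : Finset (Perm (ZMod p)) :=
  Finset.univ.filter (fun g =>
    Group.IsSolvable (Subgroup.closure ({a, g * b * g⁻¹} : Set (Perm (ZMod p)))))

theorem card_BadPair (hp4 : (p - 1) % 4 = 2) (hL : Large p) {a b : Perm (ZMod p)} {r s : ℕ}
    {za zb : ZMod p} (ha : Good a r za) (hb : Good b s zb) (hr : 11 ≤ r) (hs : 11 ≤ s) :
    p ^ 6 * (BadPair a b).card ≤ (2 * p + 1) * p ! := by
  have hge := hL.ge
  have hka := ha.card_reps
  have hkb := hb.card_reps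
  rw [ZMod.card] at hka hkb
  have hsub : BadPair a b ⊆
      ((Finset.range p).filter (fun m => 11 ≤ m ∧ m + 11 ≤ p)).biUnion (fun m => BadI a b m) ∪
      (BadIII a b ∪
      ((Finset.range p).filter (fun u => 2 ≤ u ∧ 2 ≤ (p - 1) / u ∧ u * ((p - 1) / u) = p - 1)).biUnion
        (fun u => BadII a b za zb u ((p - 1) / u))) := by
    intro g hg
    rw [BadPair, Finset.mem_filter] at hg
    have := classify hp4 (by omega) ha (hb.conj g) hr hg.2
    rw [Finset.mem_union, Finset.mem_union]
    rcases this with ⟨S, h1, h2, h3, h4⟩ | ⟨h, h1, h2⟩ | ⟨hz, u, v, f, hu, hv, huv, hf1, hf2, hf3, hf4⟩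
    · left
      rw [Finset.mem_biUnion]
      refine ⟨S.card, ?_, ?_⟩
      · rw [Finset.mem_filter, Finset.mem_range]; omega
      · rw [BadI, Finset.mem_filter]
        exact ⟨Finset.mem_univ _, S, rfl, h3, h4⟩
    · right; left
      rw [BadIII, Finset.mem_filter]
      exact ⟨Finset.mem_univ _, h, h1, h2⟩
    · right; right
      rw [Finset.mem_biUnion]
      have hvu : (p - 1) / u = v := by
        rw [← huv]; exact Nat.mul_div_cancel_left v (by omega)
      refine ⟨u, ?_, ?_⟩
      · rw [Finset.mem_filter, Finset.mem_range, hvu]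
        refine ⟨?_, hu, hv, huv⟩
        have : u * 2 ≤ u * v := Nat.mul_le_mul_left _ hv
        omega
      · rw [hvu, mem_BadII]
        exact ⟨hz, f, hf1, hf2, hf3, hf4⟩
  have h0 := Finset.card_le_card hsub
  have hI : p ^ 6 * (((Finset.range p).filter (fun m => 11 ≤ m ∧ m + 11 ≤ p)).biUnion
      (fun m => BadI a b m)).card ≤ p * p ! := by
    calc p ^ 6 * (((Finset.range p).filter (fun m => 11 ≤ m ∧ m + 11 ≤ p)).biUnion
      (fun m => BadI a b m)).card
        ≤ p ^ 6 * ∑ m ∈ (Finset.range p).filter (fun m => 11 ≤ m ∧ m + 11 ≤ p),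
          (BadI a b m).card := Nat.mul_le_mul_left _ Finset.card_biUnion_le
      _ = ∑ m ∈ (Finset.range p).filter (fun m => 11 ≤ m ∧ m + 11 ≤ p),
          p ^ 6 * (BadI a b m).card := Finset.mul_sum _ _ _
      _ ≤ ∑ m ∈ (Finset.range p).filter (fun m => 11 ≤ m ∧ m + 11 ≤ p), p ! := by
          apply Finset.sum_le_sum
          intro m hm
          rw [Finset.mem_filter] at hm
          have e1 := card_BadI a b m
          rw [ZMod.card] at e1
          have e2 := ha.card_Inv hr m
          have e3 := hb.card_Inv hs m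
          rw [ZMod.card] at e2 e3
          exact (Nat.mul_le_mul_left _ e1).trans (case_i' hge hm.2.1 hm.2.2 e2 e3)
      _ ≤ p * p ! := by
          rw [Finset.sum_const, smul_eq_mul]
          apply Nat.mul_le_mul_right
          refine (Finset.card_filter_le _ _).trans ?_
          rw [Finset.card_range]
  have hIII : p ^ 6 * (BadIII a b).card ≤ p ! :=
    (Nat.mul_le_mul_left _ (card_BadIII ha hb)).trans (case_iii hge hr hs hka hkb)
  have hII : p ^ 6 * (((Finset.range p).filter
      (fun u => 2 ≤ u ∧ 2 ≤ (p - 1) / u ∧ u * ((p - 1) / u) = p - 1)).biUnion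
        (fun u => BadII a b za zb u ((p - 1) / u))).card ≤ p * p ! := by
    calc p ^ 6 * (((Finset.range p).filter
      (fun u => 2 ≤ u ∧ 2 ≤ (p - 1) / u ∧ u * ((p - 1) / u) = p - 1)).biUnion
        (fun u => BadII a b za zb u ((p - 1) / u))).card
        ≤ p ^ 6 * ∑ u ∈ (Finset.range p).filter
            (fun u => 2 ≤ u ∧ 2 ≤ (p - 1) / u ∧ u * ((p - 1) / u) = p - 1),
          (BadII a b za zb u ((p - 1) / u)).card := Nat.mul_le_mul_left _ Finset.card_biUnion_le
      _ = ∑ u ∈ (Finset.range p).filter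
            (fun u => 2 ≤ u ∧ 2 ≤ (p - 1) / u ∧ u * ((p - 1) / u) = p - 1),
          p ^ 6 * (BadII a b za zb u ((p - 1) / u)).card := Finset.mul_sum _ _ _
      _ ≤ ∑ u ∈ (Finset.range p).filter
            (fun u => 2 ≤ u ∧ 2 ≤ (p - 1) / u ∧ u * ((p - 1) / u) = p - 1), p ! := by
          apply Finset.sum_le_sum
          intro u hu
          rw [Finset.mem_filter] at hu
          have e1 := card_BadII ha hb (u := u) (v := (p - 1) / u) (by omega)
          refine (Nat.mul_le_mul_left _ e1).trans ?_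
          refine (case_ii hL hu.2.1 hu.2.2.1 hu.2.2.2 hr hs hka hkb).trans ?_
          exact Nat.factorial_le (by omega)
      _ ≤ p * p ! := by
          rw [Finset.sum_const, smul_eq_mul]
          apply Nat.mul_le_mul_right
          refine (Finset.card_filter_le _ _).trans ?_
          rw [Finset.card_range]
  calc p ^ 6 * (BadPair a b).card ≤ p ^ 6 * (_ + (_ + _)) := by
        apply Nat.mul_le_mul_left
        refine h0.trans ((Finset.card_union_le _ _).trans ?_)
        exact Nat.add_le_add_left (Finset.card_union_le _ _) _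
    _ ≤ p * p ! + (p ! + p * p !) := by
        rw [mul_add, mul_add]
        exact Nat.add_le_add hI (Nat.add_le_add hIII hII)
    _ = (2 * p + 1) * p ! := by ring

lemma pow6_le_fact {p : ℕ} (hge : 100000 ≤ p) : p ^ 6 ≤ p ! := by
  have hpp : 6 ≤ p - 6 := by omega
  have h5 : (p - 6)! * (p - 6 + 1) ^ 6 ≤ (p - 6 + 6)! := Nat.factorial_mul_pow_le_factorial
  rw [show p - 6 + 6 = p by omega] at h5
  refine le_trans ?_ h5
  have h6 : 2 ^ 6 ≤ (p - 6)! := by
    have h7 : (2 : ℕ) ^ 6 ≤ Nat.factorial 6 := by decide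
    exact h7.trans (Nat.factorial_le hpp)
  have h8 : p ≤ 2 * (p - 6 + 1) := by omega
  have h9 : p ^ 6 ≤ (2 * (p - 6 + 1)) ^ 6 := Nat.pow_le_pow_left h8 6
  rw [mul_pow] at h9
  exact h9.trans (Nat.mul_le_mul_right _ h6)

/-- existence of a good conjugator -/
theorem exists_good (hp4 : (p - 1) % 4 = 2) (hL : Large p) :
    ∃ g : Perm (ZMod p), ¬ IsAff g ∧ ∀ a b : Perm (ZMod p), IsAff a → IsAff b →
      (∃ r z, 11 ≤ r ∧ Good a r z) → (∃ s z, 11 ≤ s ∧ Good b s z) →
      ¬ Group.IsSolvable (Subgroup.closure ({a, g * b * g⁻¹} : Set (Perm (ZMod p)))) := by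
  by_contra hcon
  push Not at hcon
  have hge := hL.ge
  let AA : Finset (Perm (ZMod p)) := Finset.univ.filter (fun a => IsAff a)
  let GG : Finset (Perm (ZMod p)) := AA.filter (fun a => ∃ r z, 11 ≤ r ∧ Good a r z)
  have hsub : (Finset.univ : Finset (Perm (ZMod p))) ⊆
      AA ∪ (GG ×ˢ GG).biUnion (fun ab => BadPair ab.1 ab.2) := by
    intro g _
    rw [Finset.mem_union]
    by_cases hg : IsAff g
    · left; simp [AA, hg]
    · right
      obtain ⟨a, b, ha, hb, ha', hb', hs⟩ := hcon g hg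
      rw [Finset.mem_biUnion]
      refine ⟨(a, b), ?_, ?_⟩
      · simp only [Finset.mem_product, GG, AA, Finset.mem_filter, Finset.mem_univ, true_and]
        exact ⟨⟨ha, ha'⟩, hb, hb'⟩
      · rw [BadPair, Finset.mem_filter]
        exact ⟨Finset.mem_univ _, hs⟩
  have h1 := Finset.card_le_card hsub
  rw [Finset.card_univ, Fintype.card_perm, ZMod.card] at h1
  have hAA : AA.card ≤ p ^ 2 := card_aff
  have hGG : GG.card ≤ p ^ 2 := (Finset.card_filter_le _ _).trans hAA
  have h2 : p ^ 6 * ((GG ×ˢ GG).biUnion (fun ab => BadPair ab.1 ab.2)).card ≤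
      p ^ 4 * ((2 * p + 1) * p !) := by
    calc p ^ 6 * ((GG ×ˢ GG).biUnion (fun ab => BadPair ab.1 ab.2)).card
        ≤ p ^ 6 * ∑ ab ∈ GG ×ˢ GG, (BadPair ab.1 ab.2).card :=
          Nat.mul_le_mul_left _ Finset.card_biUnion_le
      _ = ∑ ab ∈ GG ×ˢ GG, p ^ 6 * (BadPair ab.1 ab.2).card := Finset.mul_sum _ _ _
      _ ≤ ∑ ab ∈ GG ×ˢ GG, (2 * p + 1) * p ! := by
          apply Finset.sum_le_sum
          rintro ⟨a, b⟩ hab
          simp only [Finset.mem_product, GG, Finset.mem_filter] at hab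
          obtain ⟨⟨-, r, za, hr, ha⟩, -, s, zb, hs, hb⟩ := hab
          exact card_BadPair hp4 hL ha hb hr hs
      _ = (GG.card * GG.card) * ((2 * p + 1) * p !) := by
          rw [Finset.sum_const, smul_eq_mul, Finset.card_product]
      _ ≤ p ^ 4 * ((2 * p + 1) * p !) := by
          apply Nat.mul_le_mul_right
          calc GG.card * GG.card ≤ p ^ 2 * p ^ 2 := Nat.mul_le_mul hGG hGG
            _ = p ^ 4 := by ring
  have h3 : p ^ 6 * p ! ≤ p ^ 6 * p ^ 2 + p ^ 4 * ((2 * p + 1) * p !) := by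
    calc p ^ 6 * p ! ≤ p ^ 6 * (AA.card + ((GG ×ˢ GG).biUnion (fun ab => BadPair ab.1 ab.2)).card) :=
          Nat.mul_le_mul_left _ (h1.trans (Finset.card_union_le _ _))
      _ = p ^ 6 * AA.card + p ^ 6 * ((GG ×ˢ GG).biUnion (fun ab => BadPair ab.1 ab.2)).card := by
          ring
      _ ≤ p ^ 6 * p ^ 2 + p ^ 4 * ((2 * p + 1) * p !) := by
          gcongr
  have h4 : p ^ 6 ≤ p ! := pow6_le_fact hge
  have h5 : p ^ 6 * p ! ≤ p ^ 2 * p ! + p ^ 4 * ((2 * p + 1) * p !) := by
    refine h3.trans ?_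
    have : p ^ 6 * p ^ 2 ≤ p ^ 2 * p ! := by
      rw [mul_comm]; exact Nat.mul_le_mul_left _ h4
    exact Nat.add_le_add_right this _
  have hpos : 0 < p ! := Nat.factorial_pos p
  have h6 : p ^ 6 ≤ p ^ 2 + p ^ 4 * (2 * p + 1) := by
    apply Nat.le_of_mul_le_mul_right _ hpos
    calc p ^ 6 * p ! ≤ p ^ 2 * p ! + p ^ 4 * ((2 * p + 1) * p !) := h5
      _ = (p ^ 2 + p ^ 4 * (2 * p + 1)) * p ! := by ring
  have h7 : p ^ 2 + p ^ 4 * (2 * p + 1) < p ^ 6 := by
    have hp2 : 0 < p ^ 4 := by positivity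
    calc p ^ 2 + p ^ 4 * (2 * p + 1) ≤ p ^ 4 + p ^ 4 * (2 * p + 1) := by
          gcongr
          · omega
          · norm_num
      _ = p ^ 4 * (2 * p + 2) := by ring
      _ < p ^ 4 * (p ^ 2) := by
          apply Nat.mul_lt_mul_of_pos_left _ hp2
          nlinarith
      _ = p ^ 6 := by ring
  omega

end MP7523db
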