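import Mathlib

/-! Definitions for MP_7523db_al: the soluble graph of a group. -/

namespace Pool.Agent.Results.MP_7523db_al.SolubleGraph

/-- The join of all soluble normal subgroups of `G`. For a finite group this is the soluble
radical, the largest soluble normal subgroup. -/
def solubleRadical (G : Type*) [Group G] : Subgroup G :=
  sSup {N : Subgroup G | N.Normal ∧ Group.IsSolvable N}

/-- The soluble graph of `G`: the vertices are the elements outside the soluble radical, two
distinct vertices being adjacent when the subgroup they generate is soluble. -/
def solubleGraph (G : Type*) [Group G] : SimpleGraph {x : G // x ∉ solubleRadical G} where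
  Adj x y := x ≠ y ∧ Group.IsSolvable (Subgroup.closure ({x.1, y.1} : Set G))
  symm := ⟨fun x y h => ⟨h.1.symm, by rw [Set.pair_comm]; exact h.2⟩⟩
  loopless := ⟨fun x h => h.1 rfl⟩

end Pool.Agent.Results.MP_7523db_al.SolubleGraph
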