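import Pool.Agent.Lib.MP_7523db_al.Final
import Pool.Agent.Lib.MP_7523db_al.Defs

/-! Connectivity of the soluble graph of the alternating groups used. -/

namespace MP7523db

open Equiv
open scoped Nat Classical

open Pool.Agent.Results.MP_7523db_al.SolubleGraph

set_option linter.unusedSectionVars false
set_option linter.unusedDecidableInType false
set_option linter.unusedFintypeInType false

variable {p : ℕ} [Fact p.Prime]

/-- a relation generated by soluble pairs among even nonidentity permutations -/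
def Link (x y : Perm (ZMod p)) : Prop :=
  Relation.EqvGen (fun x y => (x ≠ 1 ∧ Perm.sign x = 1) ∧ (y ≠ 1 ∧ Perm.sign y = 1) ∧
    Group.IsSolvable (Subgroup.closure ({x, y} : Set (Perm (ZMod p))))) x y

lemma Link.of_solv {x y : Perm (ZMod p)} (hx : x ≠ 1) (hx' : Perm.sign x = 1) (hy : y ≠ 1)
    (hy' : Perm.sign y = 1)
    (h : Group.IsSolvable (Subgroup.closure ({x, y} : Set (Perm (ZMod p))))) : Link x y :=
  Relation.EqvGen.rel _ _ ⟨⟨hx, hx'⟩, ⟨hy, hy'⟩, h⟩

lemma Link.of_comm {x y : Perm (ZMod p)} (hx : x ≠ 1) (hx' : Perm.sign x = 1) (hy : y ≠ 1)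
    (hy' : Perm.sign y = 1) (h : Commute x y) : Link x y :=
  Link.of_solv hx hx' hy hy' (solv_pair_comm h)

lemma Link.trans {x y z : Perm (ZMod p)} (h : Link x y) (h' : Link y z) : Link x z :=
  Relation.EqvGen.trans _ _ _ h h'

lemma Link.symm {x y : Perm (ZMod p)} (h : Link x y) : Link y x :=
  Relation.EqvGen.symm _ _ h

/-- a 3-cycle -/
def tri (x y z : ZMod p) : Perm (ZMod p) := swap x y * swap x z

lemma tri_sign {x y z : ZMod p} (h1 : x ≠ y) (h2 : x ≠ z) : Perm.sign (tri x y z) = 1 := by
  rw [tri, map_mul, Perm.sign_swap h1, Perm.sign_swap h2]; decide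

lemma tri_ne {x y z : ZMod p} (h3 : y ≠ z) : tri x y z ≠ 1 := by
  intro h
  have := congrArg (fun q : Perm (ZMod p) => q z) h
  simp only [tri, Perm.mul_apply, swap_apply_right, swap_apply_left, Perm.one_apply] at this
  exact h3 this

lemma tri_fix {x y z w : ZMod p} (h1 : w ≠ x) (h2 : w ≠ y) (h3 : w ≠ z) : tri x y z w = w := by
  rw [tri, Perm.mul_apply, swap_apply_of_ne_of_ne h1 h3, swap_apply_of_ne_of_ne h1 h2]

/-- an element fixing three points commutes with the 3-cycle on them -/
lemma commute_tri {h : Perm (ZMod p)} {x y z : ZMod p} (hx : h x = x) (hy : h y = y)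
    (hz : h z = z) : Commute h (tri x y z) := by
  apply Perm.Disjoint.commute
  intro w
  by_cases h1 : w = x
  · left; rw [h1, hx]
  by_cases h2 : w = y
  · left; rw [h2, hy]
  by_cases h3 : w = z
  · left; rw [h3, hz]
  right; exact tri_fix h1 h2 h3

lemma exists_three {s : Finset (ZMod p)} (hs : s.card + 3 ≤ p) :
    ∃ x y z, x ∉ s ∧ y ∉ s ∧ z ∉ s ∧ x ≠ y ∧ x ≠ z ∧ y ≠ z := by
  have : 2 < (sᶜ).card := by rw [Finset.card_compl, ZMod.card]; omega
  obtain ⟨x, y, z, hx, hy, hz, h1, h2, h3⟩ := Finset.two_lt_card_iff.1 this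
  simp only [Finset.mem_compl] at hx hy hz
  exact ⟨x, y, z, hx, hy, hz, h1, h2, h3⟩

lemma tri_link (hp : 9 ≤ p) {x y z x' y' z' : ZMod p} (h1 : x ≠ y) (h2 : x ≠ z) (h3 : y ≠ z)
    (h1' : x' ≠ y') (h2' : x' ≠ z') (h3' : y' ≠ z') : Link (tri x y z) (tri x' y' z') := by
  obtain ⟨a, b, c, ha, hb, hc, hab, hac, hbc⟩ := exists_three
    (s := ({x, y, z, x', y', z'} : Finset (ZMod p))) (by
      have : ({x, y, z, x', y', z'} : Finset (ZMod p)).card ≤ 6 := Finset.card_le_six
      omega)
  simp only [Finset.mem_insert, Finset.mem_singleton, not_or] at ha hb hc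
  have l1 : Link (tri x y z) (tri a b c) :=
    Link.of_comm (tri_ne h3) (tri_sign h1 h2) (tri_ne hbc) (tri_sign hab hac)
      (commute_tri (tri_fix ha.1 ha.2.1 ha.2.2.1) (tri_fix hb.1 hb.2.1 hb.2.2.1)
        (tri_fix hc.1 hc.2.1 hc.2.2.1))
  have l2 : Link (tri x' y' z') (tri a b c) :=
    Link.of_comm (tri_ne h3') (tri_sign h1' h2') (tri_ne hbc) (tri_sign hab hac)
      (commute_tri (tri_fix ha.2.2.2.1 ha.2.2.2.2.1 ha.2.2.2.2.2)
        (tri_fix hb.2.2.2.1 hb.2.2.2.2.1 hb.2.2.2.2.2)
        (tri_fix hc.2.2.2.1 hc.2.2.2.2.1 hc.2.2.2.2.2))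
  exact l1.trans l2.symm

/-- the base 3-cycle -/
lemma tri_base (hp : 9 ≤ p) {x y z : ZMod p} (h1 : x ≠ y) (h2 : x ≠ z) (h3 : y ≠ z) :
    Link (tri x y z) (tri 0 1 (-1)) := by
  have hp2 : (2 : ZMod p) ≠ 0 := by
    intro h
    have : ((2 : ℕ) : ZMod p) = 0 := by exact_mod_cast h
    rw [ZMod.natCast_eq_zero_iff] at this
    have := Nat.le_of_dvd (by norm_num) this
    omega
  apply tri_link hp h1 h2 h3
  · exact zero_ne_one
  · intro h
    have h4 : (1 : ZMod p) = 0 := by linear_combination h
    exact one_ne_zero h4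
  · intro h
    apply hp2
    linear_combination h

lemma link_of_three_fixed (hp : 9 ≤ p) {h : Perm (ZMod p)} (hh : h ≠ 1) (hs : Perm.sign h = 1)
    {s : Finset (ZMod p)} (hcard : s.card + 3 ≤ p) (hfix : ∀ x, x ∉ s → h x = x) :
    Link h (tri 0 1 (-1)) := by
  obtain ⟨x, y, z, hx, hy, hz, h1, h2, h3⟩ := exists_three hcard
  exact (Link.of_comm hh hs (tri_ne h3) (tri_sign h1 h2)
    (commute_tri (hfix x hx) (hfix y hy) (hfix z hz))).trans (tri_base hp h1 h2 h3)

/-- Elements of prime order `r ≠ p` are linked to the base 3-cycle. -/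
lemma link_prime (hp9 : 9 ≤ p) (hpr : ∀ r : ℕ, r.Prime → r < p → r + 3 ≤ p)
    {g : Perm (ZMod p)} {r : ℕ} (hr : r.Prime) (hg1 : g ≠ 1) (hgr : g ^ r = 1)
    (hs : Perm.sign g = 1) (hrp : r ≠ p) : Link g (tri 0 1 (-1)) := by
  obtain ⟨x0, hx0⟩ : ∃ x, g x ≠ x := by
    by_contra hcon
    push Not at hcon
    exact hg1 (Equiv.ext hcon)
  have hord : orderOf g = r := by
    have := orderOf_dvd_of_pow_eq_one hgr
    rcases (Nat.dvd_prime hr).1 this with h2 | h2
    · exact absurd (orderOf_eq_one_iff.1 h2) hg1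
    · exact h2
  by_cases h2 : r = 2
  · subst h2
    have hinv : ∀ x, g (g x) = x := by
      intro x
      have := congrArg (fun q : Perm (ZMod p) => q x) hgr
      simpa [pow_two, Perm.mul_apply] using this
    -- another moved point
    obtain ⟨x1, hx1, hx10, hx1g⟩ : ∃ x1, g x1 ≠ x1 ∧ x1 ≠ x0 ∧ x1 ≠ g x0 := by
      by_contra hcon
      push Not at hcon
      have : g = swap x0 (g x0) := by
        ext x
        by_cases h3 : x = x0
        · rw [h3, swap_apply_left]
        by_cases h4 : x = g x0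
        · rw [h4, swap_apply_right, hinv]
        rw [swap_apply_of_ne_of_ne h3 h4]
        by_contra h5
        exact h4 (hcon x h5 h3)
      rw [this, Perm.sign_swap (Ne.symm hx0)] at hs
      exact absurd hs (by decide)
    set h := swap x0 (g x0) * swap x1 (g x1) with hh
    have hsw : ∀ x, g * swap x (g x) = swap x (g x) * g := by
      intro x
      rw [Equiv.mul_swap_eq_swap_mul, hinv, swap_comm]
    have hc : Commute g h := by
      show g * h = h * g
      rw [hh, ← mul_assoc, hsw, mul_assoc, hsw, mul_assoc]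
    have hgx1 : g x1 ≠ x0 := by
      intro h; apply hx1g; rw [← h, hinv]
    have hh1 : h ≠ 1 := by
      intro h1
      have := congrArg (fun q : Perm (ZMod p) => q x0) h1
      simp only [hh, Perm.mul_apply, Perm.one_apply] at this
      rw [swap_apply_of_ne_of_ne (Ne.symm hx10) (Ne.symm hgx1), swap_apply_left] at this
      exact hx0 this
    have hhs : Perm.sign h = 1 := by
      rw [hh, map_mul, Perm.sign_swap (Ne.symm hx0), Perm.sign_swap (Ne.symm hx1)]; decide
    refine (Link.of_comm hg1 hs hh1 hhs hc).trans ?_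
    refine link_of_three_fixed hp9 hh1 hhs (s := {x0, g x0, x1, g x1}) ?_ ?_
    · have : ({x0, g x0, x1, g x1} : Finset (ZMod p)).card ≤ 4 := Finset.card_le_four
      omega
    · intro x hx
      simp only [Finset.mem_insert, Finset.mem_singleton, not_or] at hx
      rw [hh, Perm.mul_apply, swap_apply_of_ne_of_ne hx.2.2.1 hx.2.2.2,
        swap_apply_of_ne_of_ne hx.1 hx.2.1]
  · -- odd order: use the cycle through x0
    have hodd : Odd r := hr.odd_of_ne_two h2
    set c := g.cycleOf x0 with hc
    have hcs : ∀ y, g.SameCycle x0 y → c y = g y := fun y hy => hy.cycleOf_apply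
    have hcn : ∀ y, ¬ g.SameCycle x0 y → c y = y := fun y hy =>
      Perm.cycleOf_apply_of_not_sameCycle hy
    have hcomm : Commute g c := by
      show g * c = c * g
      ext y
      rw [Perm.mul_apply, Perm.mul_apply]
      by_cases hy : g.SameCycle x0 y
      · rw [hcs y hy, hcs (g y) (Perm.sameCycle_apply_right.2 hy)]
      · rw [hcn y hy, hcn (g y) (fun h => hy (Perm.sameCycle_apply_right.1 h))]
    have hc1 : c ≠ 1 := by
      intro h
      have := congrArg (fun q : Perm (ZMod p) => q x0) h
      simp only [Perm.one_apply] at this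
      rw [hcs x0 (Perm.SameCycle.refl _ _)] at this
      exact hx0 this
    have hcpow : ∀ n : ℕ, ∀ y, g.SameCycle x0 y → (c ^ n) y = (g ^ n) y := by
      intro n
      induction n with
      | zero => intro y _; rfl
      | succ n ih =>
        intro y hy
        rw [pow_succ', pow_succ', Perm.mul_apply, Perm.mul_apply, ih y hy]
        apply hcs
        exact Perm.sameCycle_pow_right.2 hy
    have hcpow' : ∀ n : ℕ, ∀ y, ¬ g.SameCycle x0 y → (c ^ n) y = y := by
      intro n
      induction n with
      | zero => intro y _; rfl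
      | succ n ih =>
        intro y hy
        rw [pow_succ', Perm.mul_apply, ih y hy, hcn y hy]
    have hcr : c ^ r = 1 := by
      ext y
      by_cases hy : g.SameCycle x0 y
      · rw [hcpow r y hy, hgr]
      · rw [hcpow' r y hy]; rfl
    have hcsign : Perm.sign c = 1 := by
      have h3 : Perm.sign c ^ r = 1 := by rw [← map_pow, hcr, map_one]
      rcases Int.units_eq_one_or (Perm.sign c) with h4 | h4
      · exact h4
      · rw [h4, hodd.neg_one_pow] at h3
        exact absurd h3 (by decide)
    have hrlt : r < p := by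
      have h3 : orderOf g ∣ Fintype.card (Perm (ZMod p)) := orderOf_dvd_card
      rw [Fintype.card_perm, hord, ZMod.card] at h3
      have h4 := (hr.dvd_factorial).1 h3
      omega
    refine (Link.of_comm hg1 hs hc1 hcsign hcomm).trans ?_
    refine link_of_three_fixed hp9 hc1 hcsign (s := (Finset.range r).image (fun i => (g ^ i) x0)) ?_ ?_
    · have h3 : ((Finset.range r).image (fun i => (g ^ i) x0)).card ≤ r := by
        refine Finset.card_image_le.trans ?_
        rw [Finset.card_range]
      have := hpr r hr hrlt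
      omega
    · intro x hx
      apply hcn
      intro hsc
      apply hx
      obtain ⟨i, hi, e⟩ := hsc.exists_pow_eq'
      rw [Finset.mem_image]
      exact ⟨i, by rw [Finset.mem_range, ← hord]; exact hi, e⟩

/-- the affine group -/
def affSub (p : ℕ) [Fact p.Prime] : Subgroup (Perm (ZMod p)) where
  carrier := {c | IsAff c}
  mul_mem' := fun ha hb => ha.mul hb
  one_mem' := ⟨1, 0, fun x => by simp⟩
  inv_mem' := fun ha => ha.inv

lemma affSub_solvable : Group.IsSolvable (affSub p) := by
  have hu : ∀ c : affSub p, c.1 1 - c.1 0 ≠ 0 := by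
    intro c h
    rw [sub_eq_zero] at h
    exact one_ne_zero (c.1.injective h)
  have hmul : ∀ c : affSub p, ∀ x, c.1 x = (c.1 1 - c.1 0) * x + c.1 0 := by
    intro c x
    obtain ⟨u, t, h⟩ := c.2
    rw [h, h 1, h 0]; ring
  let uhom : affSub p →* (ZMod p)ˣ :=
    { toFun := fun c => Units.mk0 (c.1 1 - c.1 0) (hu c)
      map_one' := by
        apply Units.ext
        simp
      map_mul' := fun a b => by
        apply Units.ext
        show (a * b).1 1 - (a * b).1 0 = (a.1 1 - a.1 0) * (b.1 1 - b.1 0)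
        have e1 : (a * b).1 1 = a.1 (b.1 1) := rfl
        have e2 : (a * b).1 0 = a.1 (b.1 0) := rfl
        rw [e1, e2, hmul a (b.1 1), hmul a (b.1 0)]; ring }
  have hker : Group.IsSolvable uhom.ker := by
    apply Group.isSolvable_of_comm
    rintro ⟨a, ha⟩ ⟨b, hb⟩
    apply Subtype.ext
    apply Subtype.ext
    ext x
    have ha' : a.1 1 - a.1 0 = 1 := by
      have := congrArg Units.val (MonoidHom.mem_ker.1 ha)
      simpa [uhom] using this
    have hb' : b.1 1 - b.1 0 = 1 := by
      have := congrArg Units.val (MonoidHom.mem_ker.1 hb)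
      simpa [uhom] using this
    show a.1 (b.1 x) = b.1 (a.1 x)
    rw [hmul a (b.1 x), hmul b (a.1 x), hmul a x, hmul b x, ha', hb']; ring
  exact Group.isSolvable_of_ker_le_range uhom.ker.subtype uhom (by simp)

/-- Every even nonidentity permutation is linked to the base 3-cycle. -/
theorem link_all (hp9 : 9 ≤ p) (hpr : ∀ r : ℕ, r.Prime → r < p → r + 3 ≤ p)
    {g : Perm (ZMod p)} (hg1 : g ≠ 1) (hs : Perm.sign g = 1) : Link g (tri 0 1 (-1)) := by
  obtain ⟨n, r, hr, hn1, hnr⟩ := exists_pow_prime hg1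
  have hsn : Perm.sign (g ^ n) = 1 := by rw [map_pow, hs, one_pow]
  refine (Link.of_comm hg1 hs hn1 hsn (Commute.self_pow g n)).trans ?_
  by_cases hrp : r ≠ p
  · exact link_prime hp9 hpr hr hn1 hnr hsn hrp
  push Not at hrp
  set d := g ^ n with hd
  rw [hrp] at hnr
  have hpp : p.Prime := Fact.out
  have hordp : ∀ d : Perm (ZMod p), d ≠ 1 → d ^ p = 1 → orderOf d = p := by
    intro d hd1 hdp
    have := orderOf_dvd_of_pow_eq_one hdp
    rcases (Nat.dvd_prime hpp).1 this with h2 | h2
    · exact absurd (orderOf_eq_one_iff.1 h2) hd1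
    · exact h2
  have hcycle : ∀ d : Perm (ZMod p), d ≠ 1 → d ^ p = 1 → d.IsCycle := by
    intro d hd1 hdp
    apply Perm.isCycle_of_prime_order'
    · rw [hordp d hd1 hdp]; exact hpp
    · rw [hordp d hd1 hdp, ZMod.card]; omega
  set x : Perm (ZMod p) := Equiv.addRight (1 : ZMod p) with hx
  have hxp : x ^ p = 1 := by
    ext y; rw [hx, addRight_pow]; simp
  have hx1 : x ≠ 1 := by
    intro h
    have := congrArg (fun q : Perm (ZMod p) => q 0) h
    simp [hx] at this
  have hconj : IsConj x d := by
    rw [(hcycle x hx1 hxp).isConj_iff (hcycle d hn1 hnr), ← (hcycle x hx1 hxp).orderOf,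
      ← (hcycle d hn1 hnr).orderOf, hordp x hx1 hxp, hordp d hn1 hnr]
  obtain ⟨h, hh⟩ := isConj_iff.1 hconj
  -- multiplication by 4
  have h2ne : (2 : ZMod p) ≠ 0 := by
    intro h
    have : ((2 : ℕ) : ZMod p) = 0 := by exact_mod_cast h
    rw [ZMod.natCast_eq_zero_iff] at this
    have := Nat.le_of_dvd (by norm_num) this
    omega
  have h3ne : (3 : ZMod p) ≠ 0 := by
    intro h
    have : ((3 : ℕ) : ZMod p) = 0 := by exact_mod_cast h
    rw [ZMod.natCast_eq_zero_iff] at this
    have := Nat.le_of_dvd (by norm_num) this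
    omega
  let m : Perm (ZMod p) := Equiv.mulLeft₀ 2 h2ne
  have hm : ∀ y, m y = 2 * y := fun y => rfl
  set a := m * m with ha
  have haff : IsAff a := ⟨4, 0, fun y => by rw [ha, Perm.mul_apply, hm, hm]; ring⟩
  have ha1 : a ≠ 1 := by
    intro h
    have := congrArg (fun q : Perm (ZMod p) => q 1) h
    simp only [ha, Perm.mul_apply, hm, Perm.one_apply] at this
    apply h3ne
    linear_combination this
  have has : Perm.sign a = 1 := by
    rw [ha, map_mul]
    exact Int.units_mul_self _
  have hxa : Group.IsSolvable (Subgroup.closure ({x, a} : Set (Perm (ZMod p)))) := by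
    apply solv_closure_mono (K := affSub p) _ affSub_solvable
    rintro c (rfl | rfl)
    · exact ⟨1, 1, fun y => by simp [hx]⟩
    · exact haff
  have hda := solv_pair_conj h hxa
  rw [hh] at hda
  set a' := h * a * h⁻¹ with ha'
  have ha'1 : a' ≠ 1 := by
    intro h1
    apply ha1
    have : a = h⁻¹ * a' * h := by rw [ha']; group
    rw [this, h1]; group
  have ha's : Perm.sign a' = 1 := by rw [ha']; simp [has]
  refine (Link.of_solv hn1 hsn ha'1 ha's hda).trans ?_
  obtain ⟨n', r', hr', hn1', hnr'⟩ := exists_pow_prime ha'1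
  have hsn' : Perm.sign (a' ^ n') = 1 := by rw [map_pow, ha's, one_pow]
  refine (Link.of_comm ha'1 ha's hn1' hsn' (Commute.self_pow a' n')).trans ?_
  apply link_prime hp9 hpr hr' hn1' hnr' hsn'
  rintro rfl
  -- a' ^ n' has a fixed point, impossible for a full cycle
  have hfix : (a' ^ n') (h 0) = h 0 := by
    have h1 : a' (h 0) = h 0 := by
      rw [ha', Perm.mul_apply, Perm.mul_apply]
      have : h⁻¹ (h 0) = 0 := by simp
      rw [this, ha, Perm.mul_apply, hm, hm]; simp
    clear_value a'
    clear hnr' hn1' hsn'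
    induction n' with
    | zero => rfl
    | succ k ih => rw [pow_succ', Perm.mul_apply, ih, h1]
  have hcyc := hcycle _ hn1' hnr'
  have hsupp := hcyc.orderOf
  rw [hordp _ hn1' hnr'] at hsupp
  have huniv : (a' ^ n').support = Finset.univ := by
    apply Finset.eq_univ_of_card
    rw [← hsupp, ZMod.card]
  have : h 0 ∈ (a' ^ n').support := by rw [huniv]; exact Finset.mem_univ _
  rw [Perm.mem_support] at this
  exact this hfix

end MP7523db
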