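import Pool.Agent.Lib.MP_7523db_al.Basic

/-! Counting lemmas for MP_7523db_al. -/

namespace MP7523db

open Equiv
open scoped Nat

set_option linter.unusedSectionVars false
set_option linter.unusedDecidableInType false
set_option linter.unusedFintypeInType false

section

variable {α : Type*} [Fintype α] [DecidableEq α]

/-- `a` has prime order `r` and exactly one fixed point `z`. -/
structure Good (a : Perm α) (r : ℕ) (z : α) : Prop where
  prime : r.Prime
  pow_eq : a ^ r = 1
  fix : ∀ x, a x = x ↔ x = z

lemma pow_apply_mem {a : Perm α} {S : Finset α} (hS : ∀ x, a x ∈ S ↔ x ∈ S) (i : ℕ) (x : α) :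
    (a ^ i) x ∈ S ↔ x ∈ S := by
  induction i with
  | zero => simp
  | succ i ih => rw [pow_succ', Perm.mul_apply, hS, ih]

lemma Good.pow_fix {a : Perm α} {r : ℕ} {z : α} (h : Good a r z) (i : ℕ) : (a ^ i) z = z := by
  induction i with
  | zero => simp
  | succ i ih => rw [pow_succ', Perm.mul_apply, ih, (h.fix z).2 rfl]

lemma Good.minimalPeriod {a : Perm α} {r : ℕ} {z : α} (h : Good a r z) {x : α} (hx : x ≠ z) :
    Function.minimalPeriod a x = r := by
  have h1 : Function.minimalPeriod a x ∣ r := by
    apply Function.IsPeriodicPt.minimalPeriod_dvd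
    show (a^[r]) x = x
    rw [Perm.iterate_eq_pow, h.pow_eq]; rfl
  rcases (Nat.dvd_prime h.prime).1 h1 with h2 | h2
  · rw [Function.minimalPeriod_eq_one_iff_isFixedPt] at h2
    exact absurd ((h.fix x).1 h2) hx
  · exact h2

lemma Good.exists_reps {a : Perm α} {r : ℕ} {z : α} (h : Good a r z) :
    ∃ B : Finset α, z ∉ B ∧ (∀ x, x ≠ z → ∃ b ∈ B, ∃ i : ℕ, (a ^ i) b = x) ∧
      ∀ S : Finset α, (∀ x, a x ∈ S ↔ x ∈ S) → (S.erase z).card = r * (S ∩ B).card := by
  classical
  let out : α → α := fun x => (Quotient.out (Quotient.mk (Perm.SameCycle.setoid a) x))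
  have hout : ∀ x, Perm.SameCycle a (out x) x := fun x =>
    Quotient.exact (s := Perm.SameCycle.setoid a) (Quotient.out_eq _)
  have hout2 : ∀ x y, Perm.SameCycle a x y → out x = out y := fun x y hxy => by
    have : Quotient.mk (Perm.SameCycle.setoid a) x = Quotient.mk (Perm.SameCycle.setoid a) y :=
      Quotient.sound hxy
    simp only [out, this]
  have hz : ∀ x, Perm.SameCycle a z x → x = z := by
    intro x hx
    obtain ⟨i, hi⟩ := hx.exists_nat_pow_eq
    rw [h.pow_fix] at hi; exact hi.symm
  set B : Finset α := Finset.univ.filter (fun x => x ≠ z ∧ out x = x) with hB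
  have hcov : ∀ x, x ≠ z → ∃ b ∈ B, ∃ i : ℕ, (a ^ i) b = x := by
    intro x hx
    refine ⟨out x, ?_, ?_⟩
    · rw [hB, Finset.mem_filter]
      refine ⟨Finset.mem_univ _, ?_, ?_⟩
      · intro h0
        apply hx
        apply hz
        have := hout x
        rwa [h0] at this
      · exact hout2 _ _ (hout x)
    · exact (hout x).exists_nat_pow_eq
  refine ⟨B, by simp [hB], hcov, ?_⟩
  intro S hS
  have hmain : (S.erase z).card = ((S ∩ B) ×ˢ Finset.range r).card := by
    symm
    apply Finset.card_bij (fun (q : α × ℕ) _ => (a ^ q.2) q.1)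
    · rintro ⟨b, i⟩ hbi
      simp only [Finset.mem_product, Finset.mem_inter, Finset.mem_range] at hbi
      rw [Finset.mem_erase]
      refine ⟨?_, ?_⟩
      · intro h0
        have hb : b ≠ z := by
          have := hbi.1.2
          rw [hB, Finset.mem_filter] at this
          exact this.2.1
        apply hb
        have : (a ^ i) b = (a ^ i) z := by rw [h.pow_fix]; exact h0
        exact (a ^ i).injective this
      · exact (pow_apply_mem hS i b).2 hbi.1.1
    · rintro ⟨b, i⟩ hbi ⟨b', j⟩ hbj heq
      simp only [Finset.mem_product, Finset.mem_inter, Finset.mem_range] at hbi hbj heq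
      have hb := hbi.1.2
      have hb' := hbj.1.2
      rw [hB, Finset.mem_filter] at hb hb'
      have hs : Perm.SameCycle a b b' := by
        have h1 : Perm.SameCycle a b ((a ^ i) b) := ⟨i, by simp⟩
        have h2 : Perm.SameCycle a b' ((a ^ j) b') := ⟨j, by simp⟩
        rw [heq] at h1
        exact h1.trans h2.symm
      have hbb : b = b' := by
        rw [← hb.2.2, ← hb'.2.2]; exact hout2 _ _ hs
      subst hbb
      have hinj := Function.iterate_injOn_Iio_minimalPeriod (f := a) (x := b)
      rw [h.minimalPeriod hb.2.1] at hinj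
      have : i = j := by
        apply hinj (Set.mem_Iio.2 hbi.2) (Set.mem_Iio.2 hbj.2)
        simp only [Perm.iterate_eq_pow]
        exact heq
      subst this; rfl
    · intro x hx
      rw [Finset.mem_erase] at hx
      obtain ⟨b, hb, i, hi⟩ := hcov x hx.1
      have hbz : b ≠ z := by
        rw [hB, Finset.mem_filter] at hb; exact hb.2.1
      refine ⟨(b, i % r), ?_, ?_⟩
      · simp only [Finset.mem_product, Finset.mem_inter, Finset.mem_range]
        refine ⟨⟨?_, hb⟩, Nat.mod_lt _ h.prime.pos⟩
        rw [← hi] at hx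
        exact (pow_apply_mem hS i b).1 hx.2
      · show (a ^ (i % r)) b = x
        rw [← hi, ← Perm.iterate_eq_pow, ← Perm.iterate_eq_pow, ← h.minimalPeriod hbz,
          Function.iterate_mod_minimalPeriod_eq]
  rw [hmain, Finset.card_product, Finset.card_range, mul_comm]

/-- Representatives of the nontrivial cycles. -/
noncomputable def Good.reps {a : Perm α} {r : ℕ} {z : α} (h : Good a r z) : Finset α :=
  h.exists_reps.choose

lemma Good.z_notMem {a : Perm α} {r : ℕ} {z : α} (h : Good a r z) : z ∉ h.reps :=
  h.exists_reps.choose_spec.1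

lemma Good.cover {a : Perm α} {r : ℕ} {z : α} (h : Good a r z) :
    ∀ x, x ≠ z → ∃ b ∈ h.reps, ∃ i : ℕ, (a ^ i) b = x :=
  h.exists_reps.choose_spec.2.1

lemma Good.card_inv {a : Perm α} {r : ℕ} {z : α} (h : Good a r z) :
    ∀ S : Finset α, (∀ x, a x ∈ S ↔ x ∈ S) → (S.erase z).card = r * (S ∩ h.reps).card :=
  h.exists_reps.choose_spec.2.2

lemma Good.card_reps {a : Perm α} {r : ℕ} {z : α} (h : Good a r z) :
    r * h.reps.card = Fintype.card α - 1 := by
  have := h.card_inv Finset.univ (by simp)
  rw [Finset.univ_inter, Finset.card_erase_of_mem (Finset.mem_univ _), Finset.card_univ] at this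
  exact this.symm

/-- Equivariant functions are determined by their values on representatives and the fixed point. -/
lemma Good.ext {a : Perm α} {r : ℕ} {z : α} (h : Good a r z) {L : Type*} {c : L → L}
    {f f' : α → L} (hf : ∀ x, f (a x) = c (f x)) (hf' : ∀ x, f' (a x) = c (f' x))
    (hz : f z = f' z) (hB : ∀ b ∈ h.reps, f b = f' b) : f = f' := by
  funext x
  by_cases hx : x = z
  · rw [hx, hz]
  · obtain ⟨b, hb, i, rfl⟩ := h.cover x hx
    induction i with
    | zero => simpa using hB b hb
    | succ i ih =>
      rw [pow_succ', Perm.mul_apply, hf, hf']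
      by_cases hx' : (a ^ i) b = z
      · rw [hx', hz]
      · rw [ih hx']

lemma card_comp_eq_le {L : Type*} [Fintype L] [DecidableEq L] (f f' : α → L) :
    (Finset.univ.filter (fun g : Perm α => f ∘ g = f')).card ≤
      ∏ i, (Fintype.card {x // f x = i})! := by
  classical
  rcases Finset.eq_empty_or_nonempty (Finset.univ.filter (fun g : Perm α => f ∘ g = f')) with h | h
  · rw [h]; simp
  · obtain ⟨g0, hg0⟩ := h
    rw [Finset.mem_filter] at hg0
    rw [← DomMulAct.stabilizer_card f, Fintype.card_subtype]
    apply Finset.card_le_card_of_injOn (fun g => g * g0⁻¹)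
    · intro g hg
      simp only [Finset.coe_filter, Finset.mem_univ, true_and, Set.mem_ofPred_eq] at hg ⊢
      funext x
      have h1 := congrFun hg (g0⁻¹ x)
      have h2 := congrFun hg0.2 (g0⁻¹ x)
      simp only [Function.comp_apply, Perm.mul_apply] at h1 h2 ⊢
      rw [h1, ← h2]; simp
    · intro g _ g' _ hgg
      exact mul_right_cancel hgg

end

end MP7523db
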