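import Pool.Agent.Lib.MP_7523db_al.Classify

/-! The far pair, and connectivity of the soluble graph of the alternating groups used. -/

namespace MP7523db

open Equiv
open scoped Nat Classical

set_option linter.unusedSectionVars false
set_option linter.unusedDecidableInType false
set_option linter.unusedFintypeInType false

section solv

variable {G : Type*} [Group G]

lemma solv_mono {H K : Subgroup G} (h : H ≤ K) (hK : Group.IsSolvable K) : Group.IsSolvable H :=
  Group.isSolvable_of_isSolvable_injective (f := Subgroup.inclusion h) (Subgroup.inclusion_injective h)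

lemma solv_closure_mono {S : Set G} {K : Subgroup G} (h : S ⊆ K) (hK : Group.IsSolvable K) :
    Group.IsSolvable (Subgroup.closure S) :=
  solv_mono ((Subgroup.closure_le K).2 h) hK

lemma solv_map {G' : Type*} [Group G'] (f : G →* G') {K : Subgroup G} (hK : Group.IsSolvable K) :
    Group.IsSolvable (K.map f) :=
  Group.isSolvable_of_surjective (f := f.subgroupMap K) (f.subgroupMap_surjective K)

lemma solv_pair_map {G' : Type*} [Group G'] (f : G →* G') {x y : G}
    (h : Group.IsSolvable (Subgroup.closure ({x, y} : Set G))) :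
    Group.IsSolvable (Subgroup.closure ({f x, f y} : Set G')) := by
  have := solv_map f h
  rwa [MonoidHom.map_closure, Set.image_pair] at this

lemma solv_pair_of_map {G' : Type*} [Group G'] (f : G →* G') (hf : Function.Injective f) {x y : G}
    (h : Group.IsSolvable (Subgroup.closure ({f x, f y} : Set G'))) :
    Group.IsSolvable (Subgroup.closure ({x, y} : Set G)) := by
  rw [← Set.image_pair, ← MonoidHom.map_closure] at h
  exact Group.isSolvable_of_isSolvable_injective
    (f := f.subgroupMap (Subgroup.closure ({x, y} : Set G)))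
    ((Subgroup.closure ({x, y} : Set G)).equivMapOfInjective f hf).injective

lemma solv_pair_comm {x y : G} (h : Commute x y) :
    Group.IsSolvable (Subgroup.closure ({x, y} : Set G)) := by
  apply Group.isSolvable_of_comm
  have : ∀ a ∈ ({x, y} : Set G), ∀ b ∈ ({x, y} : Set G), a * b = b * a := by
    rintro a (rfl | rfl) b (rfl | rfl)
    · rfl
    · exact h
    · exact h.symm
    · rfl
  have hc := Subgroup.isMulCommutative_closure this
  intro a b
  exact hc.is_comm.comm a b

lemma solv_pair_conj (g : G) {x y : G}
    (h : Group.IsSolvable (Subgroup.closure ({x, y} : Set G))) :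
    Group.IsSolvable (Subgroup.closure ({g * x * g⁻¹, g * y * g⁻¹} : Set G)) :=
  solv_pair_map (MulAut.conj g).toMonoidHom h

end solv

variable {p : ℕ} [Fact p.Prime]

lemma addRight_pow (t : ZMod p) (n : ℕ) (x : ZMod p) :
    ((Equiv.addRight t) ^ n) x = x + n * t := by
  induction n with
  | zero => simp
  | succ n ih => rw [pow_succ', Perm.mul_apply, ih]; simp; ring

lemma mem_of_addRight {t : ZMod p} (ht : t ≠ 0) {K : Subgroup (Perm (ZMod p))}
    (h : Equiv.addRight t ∈ K) : Equiv.addRight (1 : ZMod p) ∈ K := by
  have : Equiv.addRight (1 : ZMod p) = (Equiv.addRight t) ^ (t⁻¹).val := by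
    ext x
    rw [addRight_pow, ZMod.natCast_zmod_val, inv_mul_cancel₀ ht]
    rfl
  rw [this]; exact K.pow_mem h _

/-- residue conditions on `p` -/
structure Res (p : ℕ) : Prop where
  mod : p % 420 = 107
  large : Large p

lemma even_affine (hp : Res p) {c : Perm (ZMod p)} (hc : IsAff c) (hc1 : c ≠ 1)
    (hsign : Perm.sign c = 1) {r : ℕ} (hr : r.Prime) (hcr : c ^ r = 1) :
    (∃ r z, 11 ≤ r ∧ Good c r z) ∨ ∃ t : ZMod p, t ≠ 0 ∧ c = Equiv.addRight t := by
  have hmod := hp.mod
  obtain ⟨u, t, h⟩ := hc
  by_cases hu : u = 1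
  · right
    subst hu
    refine ⟨t, ?_, ?_⟩
    · rintro rfl
      apply hc1
      ext x; rw [h]; simp
    · ext x; rw [h]; simp
  · left
    have h1 : (1 - u) ≠ 0 := sub_ne_zero.2 (Ne.symm hu)
    have hg : Good c r (t / (1 - u)) := by
      refine ⟨hr, hcr, fun x => ?_⟩
      rw [h, eq_div_iff h1]
      constructor
      · intro hx; linear_combination -hx
      · intro hx; linear_combination -hx
    refine ⟨r, _, ?_, hg⟩
    have hk := hg.card_reps
    rw [ZMod.card] at hk
    -- r ≠ 2
    have hr2 : r ≠ 2 := by
      rintro rfl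
      have hord : orderOf c = 2 := by
        have := orderOf_dvd_of_pow_eq_one hcr
        rcases (Nat.dvd_prime Nat.prime_two).1 this with h2 | h2
        · exact absurd (orderOf_eq_one_iff.1 h2) hc1
        · exact h2
      obtain ⟨n, hn⟩ := Perm.cycleType_prime_order (σ := c) (by rw [hord]; exact Nat.prime_two)
      have hsum := c.sum_cycleType
      have hsupp : c.support = Finset.univ.erase (t / (1 - u)) := by
        ext x
        rw [Perm.mem_support, Finset.mem_erase]
        simp [hg.fix]
      rw [hsupp, Finset.card_erase_of_mem (Finset.mem_univ _), Finset.card_univ, ZMod.card, hn,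
        hord, Multiset.sum_replicate, smul_eq_mul] at hsum
      have hs := Perm.sign_of_cycleType c
      rw [hn, hord, Multiset.sum_replicate, Multiset.card_replicate, smul_eq_mul, hsign] at hs
      have hodd : Odd ((n + 1) * 2 + (n + 1)) := by
        rw [Nat.odd_iff]; omega
      rw [hodd.neg_one_pow] at hs
      exact absurd hs (by decide)
    have hrd : r ∣ p - 1 := ⟨_, hk.symm⟩
    have h3 : r ≠ 3 := by rintro rfl; omega
    have h5 : r ≠ 5 := by rintro rfl; omega
    have h7 : r ≠ 7 := by rintro rfl; omega
    by_contra hcon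
    have : r < 11 := by omega
    interval_cases r <;> revert hr <;> norm_num at *

lemma exists_pow_prime {G : Type*} [Group G] [Finite G] {a : G} (ha : a ≠ 1) :
    ∃ (n r : ℕ), r.Prime ∧ a ^ n ≠ 1 ∧ (a ^ n) ^ r = 1 := by
  have hne : orderOf a ≠ 1 := fun h => ha (orderOf_eq_one_iff.1 h)
  have hpos : 0 < orderOf a := orderOf_pos a
  obtain ⟨n, hn⟩ := Nat.minFac_dvd (orderOf a)
  have hr := Nat.minFac_prime hne
  refine ⟨n, (orderOf a).minFac, hr, ?_, ?_⟩
  · intro h
    have h2 := orderOf_dvd_of_pow_eq_one h
    have hnpos : 0 < n := by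
      rcases Nat.eq_zero_or_pos n with h | h
      · rw [h, mul_zero] at hn; omega
      · exact h
    have h3 := Nat.le_of_dvd hnpos h2
    have h4 := hr.two_le
    nlinarith
  · rw [← pow_mul, mul_comm, ← hn, pow_orderOf_eq_one]

/-- The key statement at the level of permutations. -/
theorem far_perm (hp : Res p) : ∃ g : Perm (ZMod p), ∀ a b : Perm (ZMod p), a ≠ 1 → b ≠ 1 →
    Perm.sign a = 1 → Perm.sign b = 1 →
    Group.IsSolvable (Subgroup.closure ({Equiv.addRight (1 : ZMod p), a} : Set (Perm (ZMod p)))) →
    Group.IsSolvable (Subgroup.closure ({a, b} : Set (Perm (ZMod p)))) →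
    Group.IsSolvable (Subgroup.closure
      ({b, g * Equiv.addRight (1 : ZMod p) * g⁻¹} : Set (Perm (ZMod p)))) → False := by
  have hmod := hp.mod
  have hge := hp.large.ge
  obtain ⟨g, hgA, hg⟩ := exists_good (p := p) (by omega) hp.large
  refine ⟨g, ?_⟩
  intro a b ha1 hb1 hsa hsb h1 h2 h3
  set x : Perm (ZMod p) := Equiv.addRight (1 : ZMod p) with hx
  -- elements near `x` are affine
  have key1 : ∀ c : Perm (ZMod p), Group.IsSolvable (Subgroup.closure ({x, c} : Set _)) →
      IsAff c := by
    intro c hc
    have hxm : x ∈ Subgroup.closure ({x, c} : Set (Perm (ZMod p))) :=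
      Subgroup.subset_closure (by simp)
    exact soluble_le_affine (Subgroup.closure ({x, c} : Set _)) hxm
      c (Subgroup.subset_closure (by simp))
  have key2 : ∀ c : Perm (ZMod p), Group.IsSolvable (Subgroup.closure ({c, g * x * g⁻¹} : Set _)) →
      IsAff (g⁻¹ * c * g) := by
    intro c hc
    apply key1
    have h4 := solv_pair_conj g⁻¹ hc
    rw [inv_inv, show g⁻¹ * (g * x * g⁻¹) * g = x by group, Set.pair_comm] at h4
    exact h4
  obtain ⟨n, r, hr, hn1, hnr⟩ := exists_pow_prime ha1
  obtain ⟨m, s, hs, hm1, hms⟩ := exists_pow_prime hb1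
  set a' := a ^ n with ha'
  set b' := b ^ m with hb'
  have h1' : Group.IsSolvable (Subgroup.closure ({x, a'} : Set (Perm (ZMod p)))) := by
    apply solv_closure_mono _ h1
    rintro c (rfl | rfl)
    · exact Subgroup.subset_closure (by simp)
    · exact Subgroup.pow_mem _ (Subgroup.subset_closure (by simp)) _
  have h2' : Group.IsSolvable (Subgroup.closure ({a', b'} : Set (Perm (ZMod p)))) := by
    apply solv_closure_mono _ h2
    rintro c (rfl | rfl)
    · exact Subgroup.pow_mem _ (Subgroup.subset_closure (by simp)) _
    · exact Subgroup.pow_mem _ (Subgroup.subset_closure (by simp)) _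
  have h3' : Group.IsSolvable (Subgroup.closure ({b', g * x * g⁻¹} : Set (Perm (ZMod p)))) := by
    apply solv_closure_mono _ h3
    rintro c (rfl | rfl)
    · exact Subgroup.pow_mem _ (Subgroup.subset_closure (by simp)) _
    · exact Subgroup.subset_closure (by simp)
  have hsa' : Perm.sign a' = 1 := by rw [ha', map_pow, hsa, one_pow]
  have hsb' : Perm.sign b' = 1 := by rw [hb', map_pow, hsb, one_pow]
  set b1 := g⁻¹ * b' * g with hb1def
  have hbb1 : b' = g * b1 * g⁻¹ := by rw [hb1def]; group
  have ha'aff := key1 a' h1'
  have hb1aff : IsAff b1 := key2 b' h3'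
  have hb11 : b1 ≠ 1 := by
    intro h; rw [h] at hbb1; apply hm1; rw [hbb1]; group
  have hb1s : b1 ^ s = 1 := by
    have : b1 = g⁻¹ * b' * g⁻¹⁻¹ := by rw [hb1def, inv_inv]
    rw [this, conj_pow, hms]; simp
  have hsb1 : Perm.sign b1 = 1 := by
    rw [hb1def]; simp [hsb']
  rcases even_affine hp ha'aff hn1 hsa' hr hnr with hA | ⟨t, ht, hat⟩
  · rcases even_affine hp hb1aff hb11 hsb1 hs hb1s with hB | ⟨t', ht', hbt⟩
    · rw [hbb1] at h2'
      exact hg a' b1 ha'aff hb1aff hA hB h2'
    · -- b1 translation
      have hy : g * x * g⁻¹ ∈ Subgroup.closure ({b'} : Set (Perm (ZMod p))) := by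
        have h4 : x ∈ Subgroup.closure ({b1} : Set (Perm (ZMod p))) := by
          apply mem_of_addRight ht'
          rw [← hbt]; exact Subgroup.subset_closure (by simp)
        have h5 := Subgroup.mem_map_of_mem (MulAut.conj g).toMonoidHom h4
        rw [MonoidHom.map_closure, Set.image_singleton] at h5
        simp only [MulEquiv.toMonoidHom_eq_coe, MonoidHom.coe_coe, MulAut.conj_apply] at h5
        rwa [← hbb1] at h5
      have h6 : Group.IsSolvable (Subgroup.closure ({a', g * x * g⁻¹} : Set (Perm (ZMod p)))) := by
        apply solv_closure_mono _ h2'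
        rintro c (rfl | rfl)
        · exact Subgroup.subset_closure (by simp)
        · exact Subgroup.closure_mono (by simp) hy
      have h7 : IsAff (g⁻¹ * a' * g) := key2 a' h6
      obtain ⟨r', z, hr', hgood⟩ := hA
      have h8 : Good (g⁻¹ * a' * g) r' (g⁻¹ z) := by
        have := hgood.conj g⁻¹
        rwa [inv_inv] at this
      apply hg a' (g⁻¹ * a' * g) ha'aff h7 ⟨r', z, hr', hgood⟩ ⟨r', _, hr', h8⟩
      rw [show g * (g⁻¹ * a' * g) * g⁻¹ = a' by group]
      exact solv_pair_comm (Commute.refl _)
  · -- a' translation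
    have hxa : x ∈ Subgroup.closure ({a'} : Set (Perm (ZMod p))) := by
      apply mem_of_addRight ht
      rw [← hat]; exact Subgroup.subset_closure (by simp)
    have h6 : Group.IsSolvable (Subgroup.closure ({x, b'} : Set (Perm (ZMod p)))) := by
      apply solv_closure_mono _ h2'
      rintro c (rfl | rfl)
      · exact Subgroup.closure_mono (by simp) hxa
      · exact Subgroup.subset_closure (by simp)
    have hb'aff := key1 b' h6
    rcases even_affine hp hb1aff hb11 hsb1 hs hb1s with hB | ⟨t', ht', hbt⟩
    · obtain ⟨s', z, hs', hgood⟩ := hB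
      have h8 : Good b' s' (g z) := by
        have := hgood.conj g
        rwa [← hbb1] at this
      apply hg b' b1 hb'aff hb1aff ⟨s', _, hs', h8⟩ ⟨s', z, hs', hgood⟩
      rw [← hbb1]
      exact solv_pair_comm (Commute.refl _)
    · -- both translations: g affine
      apply hgA
      rcases even_affine hp hb'aff hm1 hsb' hs hms with ⟨s', z, -, hgood⟩ | ⟨t'', ht'', hbt''⟩
      · exfalso
        have h9 := (hgood.fix z).2 rfl
        rw [hbb1, hbt] at h9
        simp only [Perm.mul_apply] at h9
        have h10 := congrArg (fun w => g⁻¹ w) h9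
        simp only [Perm.inv_def, Equiv.symm_apply_apply] at h10
        simp only [Equiv.coe_addRight, add_eq_left] at h10
        exact ht' h10
      · -- g (z + t') = g z + t''
        have hstep : ∀ i, g (i + t') = g i + t'' := by
          intro i
          have h9 : b' (g i) = g i + t'' := by rw [hbt'']; simp
          rw [hbb1, hbt] at h9
          simpa [Perm.mul_apply] using h9
        refine ⟨t'' * t'⁻¹, g 0, fun i => ?_⟩
        have key : ∀ n : ℕ, g (t' * n) = t'' * n + g 0 := by
          intro n
          induction n with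
          | zero => simp
          | succ n ih =>
            have : t' * ((n + 1 : ℕ) : ZMod p) = t' * n + t' := by push_cast; ring
            rw [this, hstep, ih]; push_cast; ring
        have := key (t'⁻¹ * i).val
        rw [ZMod.natCast_zmod_val] at this
        rw [← mul_assoc, mul_inv_cancel₀ ht', one_mul] at this
        rw [this]; ring

end MP7523db
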