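import Pool.Agent.Lib.MP_7523db_al.Basic

/-! Group theory for MP_7523db_al: soluble permutation groups of prime degree. -/

namespace MP7523db

open Equiv
open scoped Nat

set_option linter.unusedSectionVars false
set_option linter.unusedDecidableInType false
set_option linter.unusedFintypeInType false

lemma exists_abelian (G : Type*) [Group G] [Group.IsSolvable G] [Nontrivial G] :
    ∃ A : Subgroup G, A.Normal ∧ A ≠ ⊥ ∧ ∀ x ∈ A, ∀ y ∈ A, x * y = y * x := by
  classical
  have hs : ∃ n, derivedSeries G n = ⊥ := Group.IsSolvable.solvable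
  have hn := Nat.find_spec hs
  have hn0 : Nat.find hs ≠ 0 := by
    intro h0
    rw [h0, derivedSeries_zero] at hn
    exact absurd hn top_ne_bot
  obtain ⟨m, hm⟩ := Nat.exists_eq_succ_of_ne_zero hn0
  have hlt : m < Nat.find hs := by omega
  refine ⟨derivedSeries G m, derivedSeries_normal G m, Nat.find_min hs hlt, ?_⟩
  rw [hm, Nat.succ_eq_add_one, derivedSeries_succ, Subgroup.commutator_eq_bot_iff_le_centralizer] at hn
  intro x hx y hy
  have := hn hx
  rw [Subgroup.mem_centralizer_iff] at this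
  exact (this y hy).symm

section affine

variable {p : ℕ} [Fact p.Prime]

lemma isAff_of_step {c : Perm (ZMod p)} {m : ZMod p} (h : ∀ i, c (i + 1) = c i + m) : IsAff c := by
  refine ⟨m, c 0, ?_⟩
  have key : ∀ n : ℕ, c (n : ZMod p) = m * n + c 0 := by
    intro n
    induction n with
    | zero => simp
    | succ n ih => push_cast; rw [h, ih]; ring
  intro x
  have := key x.val
  rwa [ZMod.natCast_zmod_val] at this

lemma IsAff.u_ne {c : Perm (ZMod p)} {u t : ZMod p} (h : ∀ x, c x = u * x + t) : u ≠ 0 := by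
  intro hu
  have : c 0 = c 1 := by rw [h, h, hu]; ring
  exact zero_ne_one (c.injective this)

lemma IsAff.mul {a b : Perm (ZMod p)} (ha : IsAff a) (hb : IsAff b) : IsAff (a * b) := by
  obtain ⟨u, c, h⟩ := ha
  obtain ⟨u', c', h'⟩ := hb
  exact ⟨u * u', u * c' + c, fun x => by rw [Perm.mul_apply, h, h']; ring⟩

lemma IsAff.inv {a : Perm (ZMod p)} (ha : IsAff a) : IsAff (a⁻¹) := by
  obtain ⟨u, c, h⟩ := ha
  have hu := IsAff.u_ne h
  refine ⟨u⁻¹, -(u⁻¹ * c), fun x => ?_⟩
  apply a.injective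
  have : a (a⁻¹ x) = x := by simp
  rw [this, h]
  field_simp
  ring

theorem transitive_case (H : Subgroup (Perm (ZMod p))) [Group.IsSolvable H]
    (htr : ∀ x y : ZMod p, ∃ h ∈ H, h x = y) :
    ∃ h : Perm (ZMod p), ∀ c ∈ H, IsAff (h⁻¹ * c * h) := by
  classical
  have : MulAction.IsPretransitive H (ZMod p) :=
    ⟨fun x y => by
      obtain ⟨h, hh, e⟩ := htr x y
      exact ⟨⟨h, hh⟩, e⟩⟩
  have hp : p.Prime := Fact.out
  have : MulAction.IsPreprimitive H (ZMod p) :=
    MulAction.IsPreprimitive.of_prime_card (by rw [Nat.card_eq_fintype_card, ZMod.card]; exact hp)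
  have : Nontrivial H := by
    obtain ⟨h, hh, e⟩ := htr 0 1
    refine ⟨⟨h, hh⟩, 1, ?_⟩
    intro h1
    have h2 : h = 1 := congrArg Subtype.val h1
    rw [h2] at e
    exact zero_ne_one e
  obtain ⟨A, hAn, hA1, hAc⟩ := exists_abelian H
  -- A is transitive
  have hAtr : MulAction.IsPretransitive A (ZMod p) := by
    apply MulAction.IsQuasiPreprimitive.isPretransitive_of_normal (G := H)
    intro hfix
    apply hA1
    rw [Subgroup.eq_bot_iff_forall]
    intro x hx
    apply Subtype.ext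
    apply Equiv.ext
    intro y
    have : y ∈ MulAction.fixedPoints A (ZMod p) := by rw [hfix]; trivial
    exact this ⟨x, hx⟩
  -- regularity
  have hreg : ∀ x ∈ A, ∀ y : ZMod p, (x : Perm (ZMod p)) y = y → x = 1 := by
    intro x hx y hy
    apply Subtype.ext
    apply Equiv.ext
    intro w
    obtain ⟨a', ha'⟩ := hAtr.exists_smul_eq y w
    have h1 := hAc x hx a'.1 a'.2
    have h2 : ((a'.1 : Perm (ZMod p))) y = w := ha'
    have h3 : (x : Perm (ZMod p)) ((a'.1 : Perm (ZMod p)) y) =
        (a'.1 : Perm (ZMod p)) ((x : Perm (ZMod p)) y) := by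
      have := congrArg (fun q : H => (q : Perm (ZMod p)) y) h1
      simpa [Perm.mul_apply] using this
    rw [h2, hy, h2] at h3
    rw [h3]; rfl
  have hreg2 : ∀ x ∈ A, ∀ x' ∈ A, ∀ y : ZMod p, (x : Perm (ZMod p)) y = (x' : Perm (ZMod p)) y →
      x = x' := by
    intro x hx x' hx' y hy
    have h1 : x'⁻¹ * x = 1 := by
      apply hreg _ (A.mul_mem (A.inv_mem hx') hx) y
      simp [Perm.mul_apply, hy]
    exact (inv_mul_eq_one.1 h1).symm
  have hcard : Nat.card A = p := by
    have hcp : Nat.card (ZMod p) = p := by rw [Nat.card_eq_fintype_card, ZMod.card]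
    refine Eq.trans (Nat.card_congr ?_) hcp
    apply Equiv.ofBijective (fun a : A => ((a.1 : Perm (ZMod p))) 0)
    constructor
    · intro a a' h
      exact Subtype.ext (hreg2 _ a.2 _ a'.2 0 h)
    · intro y
      exact hAtr.exists_smul_eq 0 y
  obtain ⟨z, hzA, hz1⟩ : ∃ z ∈ A, z ≠ 1 := by
    by_contra hcon
    push Not at hcon
    exact hA1 ((Subgroup.eq_bot_iff_forall A).2 hcon)
  have hord : orderOf z = p := by
    have h1 : orderOf (⟨z, hzA⟩ : A) ∣ p := (orderOf_dvd_natCard _).trans (dvd_of_eq hcard)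
    have h2 : orderOf (⟨z, hzA⟩ : A) = orderOf z := Subgroup.orderOf_mk z hzA
    rw [h2] at h1
    rcases (Nat.dvd_prime hp).1 h1 with h3 | h3
    · exact absurd (orderOf_eq_one_iff.1 h3) hz1
    · exact h3
  let f : ZMod p → ZMod p := fun i => ((z ^ i.val : H) : Perm (ZMod p)) 0
  have hfinj : Function.Injective f := by
    intro i j hij
    have h1 := hreg2 _ (A.pow_mem hzA i.val) _ (A.pow_mem hzA j.val) 0 hij
    have h2 := pow_injOn_Iio_orderOf (x := z) (by rw [hord]; exact Set.mem_Iio.2 (ZMod.val_lt i))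
      (by rw [hord]; exact Set.mem_Iio.2 (ZMod.val_lt j)) h1
    exact ZMod.val_injective p h2
  have hfbij : Function.Bijective f := Finite.injective_iff_bijective.1 hfinj
  let h : Perm (ZMod p) := Equiv.ofBijective f hfbij
  have hf : ∀ i (n : ℕ), h (i + n) = ((z ^ n : H) : Perm (ZMod p)) (h i) := by
    intro i n
    show f (i + n) = ((z ^ n : H) : Perm (ZMod p)) (f i)
    simp only [f]
    have h1 : z ^ (i + (n : ZMod p)).val = z ^ n * z ^ i.val := by
      rw [← pow_add, pow_eq_pow_iff_modEq, hord, ← ZMod.natCast_eq_natCast_iff]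
      push_cast
      rw [ZMod.natCast_zmod_val, ZMod.natCast_zmod_val]
      ring
    rw [h1]; rfl
  refine ⟨h, fun c hc => ?_⟩
  -- c z c⁻¹ = z ^ m
  obtain ⟨m, hm⟩ : ∃ m : ZMod p, (⟨c, hc⟩ : H) * z * (⟨c, hc⟩ : H)⁻¹ = z ^ m.val := by
    have hmem : (⟨c, hc⟩ : H) * z * (⟨c, hc⟩ : H)⁻¹ ∈ A := hAn.conj_mem z hzA _
    obtain ⟨m, hm⟩ := hfbij.2 ((((⟨c, hc⟩ : H) * z * (⟨c, hc⟩ : H)⁻¹ : H) : Perm (ZMod p)) 0)
    exact ⟨m, (hreg2 _ (A.pow_mem hzA m.val) _ hmem 0 hm).symm⟩
  have hm' : (⟨c, hc⟩ : H) * z = z ^ m.val * (⟨c, hc⟩ : H) := by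
    rw [← hm]; group
  apply isAff_of_step (m := m)
  intro i
  apply h.injective
  have e1 : h ((h⁻¹ * c * h) (i + 1)) = c (h (i + 1)) := by simp [Perm.mul_apply]
  have e2 : h (i + 1) = (z : Perm (ZMod p)) (h i) := by
    have := hf i 1
    simpa using this
  have e3 : c ((z : Perm (ZMod p)) (h i)) = ((z ^ m.val : H) : Perm (ZMod p)) (c (h i)) := by
    have := congrArg (fun q : H => (q : Perm (ZMod p)) (h i)) hm'
    simpa [Perm.mul_apply] using this
  have e4 : c (h i) = h ((h⁻¹ * c * h) i) := by simp [Perm.mul_apply]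
  rw [e1, e2, e3, e4, ← hf, ZMod.natCast_zmod_val]

/-- A soluble subgroup containing the translation `x ↦ x + 1` is affine. -/
theorem soluble_le_affine (H : Subgroup (Perm (ZMod p))) [Group.IsSolvable H]
    (hx : Equiv.addRight (1 : ZMod p) ∈ H) : ∀ c ∈ H, IsAff c := by
  have hpow : ∀ (n : ℕ) (x : ZMod p), ((Equiv.addRight (1 : ZMod p)) ^ n) x = x + n := by
    intro n
    induction n with
    | zero => intro x; simp
    | succ n ih => intro x; rw [pow_succ', Perm.mul_apply, ih]; simp [add_assoc]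
  obtain ⟨h, hh⟩ := transitive_case H (by
    intro x y
    refine ⟨(Equiv.addRight (1 : ZMod p)) ^ (y - x).val, H.pow_mem hx _, ?_⟩
    rw [hpow, ZMod.natCast_zmod_val]; ring)
  obtain ⟨u, t, hut⟩ := hh _ hx
  have hfix : ∀ i, (h⁻¹ * Equiv.addRight (1 : ZMod p) * h) i ≠ i := by
    intro i hi
    have : h ((h⁻¹ * Equiv.addRight (1 : ZMod p) * h) i) = h i := by rw [hi]
    simp [Perm.mul_apply] at this
  have hu : u = 1 := by
    by_contra hu
    have h1 : (1 - u) ≠ 0 := sub_ne_zero.2 (Ne.symm hu)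
    apply hfix (t / (1 - u))
    rw [hut]
    field_simp
    ring
  subst hu
  have ht : t ≠ 0 := by
    intro ht
    apply hfix 0
    rw [hut, ht]; ring
  have hstep : ∀ i, h (i + t) = h i + 1 := by
    intro i
    have h1 := hut i
    have h2 : h ((h⁻¹ * Equiv.addRight (1 : ZMod p) * h) i) = h i + 1 := by
      simp [Perm.mul_apply]
    rw [h1] at h2
    rw [← h2]; congr 1; ring
  have haff : IsAff h := by
    refine ⟨t⁻¹, h 0, fun i => ?_⟩
    have key : ∀ n : ℕ, h (t * n) = n + h 0 := by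
      intro n
      induction n with
      | zero => simp
      | succ n ih =>
        have : t * ((n + 1 : ℕ) : ZMod p) = t * n + t := by push_cast; ring
        rw [this, hstep, ih]; push_cast; ring
    have := key (t⁻¹ * i).val
    rw [ZMod.natCast_zmod_val] at this
    rw [← this]; congr 1; field_simp
  intro c hc
  have h1 : c = h * (h⁻¹ * c * h) * h⁻¹ := by group
  rw [h1]
  exact (haff.mul (hh c hc)).mul haff.inv

end affine

end MP7523db
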